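import Pool.Agent.Lib.MP_0f64a9_nt.Search

set_option autoImplicit false
namespace Pool.Agent.Lib.MP_0f64a9_nt
theorem k0 : chk3 0 = true := by decide +kernel
theorem k12 : chk3 12 = true := by decide +kernel
theorem k24 : chk3 24 = true := by decide +kernel
theorem k36 : chk3 36 = true := by decide +kernel
theorem k48 : chk3 48 = true := by decide +kernel
theorem k60 : chk3 60 = true := by decide +kernel
theorem k72 : chk3 72 = true := by decide +kernel
theorem k84 : chk3 84 = true := by decide +kernel
theorem k96 : chk3 96 = true := by decide +kernel
theorem k108 : chk3 108 = true := by decide +kernel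
theorem k120 : chk3 120 = true := by decide +kernel
theorem k132 : chk3 132 = true := by decide +kernel
theorem k144 : chk3 144 = true := by decide +kernel
theorem k156 : chk3 156 = true := by decide +kernel
theorem k168 : chk3 168 = true := by decide +kernel
theorem k180 : chk3 180 = true := by decide +kernel
theorem k192 : chk3 192 = true := by decide +kernel
theorem k204 : chk3 204 = true := by decide +kernel
end Pool.Agent.Lib.MP_0f64a9_nt
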