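import Pool.Agent.Lib.MP_0f64a9_nt.Search

set_option autoImplicit false
namespace Pool.Agent.Lib.MP_0f64a9_nt
theorem k1 : chk3 1 = true := by decide +kernel
theorem k13 : chk3 13 = true := by decide +kernel
theorem k25 : chk3 25 = true := by decide +kernel
theorem k37 : chk3 37 = true := by decide +kernel
theorem k49 : chk3 49 = true := by decide +kernel
theorem k61 : chk3 61 = true := by decide +kernel
theorem k73 : chk3 73 = true := by decide +kernel
theorem k85 : chk3 85 = true := by decide +kernel
theorem k97 : chk3 97 = true := by decide +kernel
theorem k109 : chk3 109 = true := by decide +kernel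
theorem k121 : chk3 121 = true := by decide +kernel
theorem k133 : chk3 133 = true := by decide +kernel
theorem k145 : chk3 145 = true := by decide +kernel
theorem k157 : chk3 157 = true := by decide +kernel
theorem k169 : chk3 169 = true := by decide +kernel
theorem k181 : chk3 181 = true := by decide +kernel
theorem k193 : chk3 193 = true := by decide +kernel
theorem k205 : chk3 205 = true := by decide +kernel
end Pool.Agent.Lib.MP_0f64a9_nt
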