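import Pool.Agent.Lib.MP_0f64a9_nt.Search

set_option autoImplicit false
namespace Pool.Agent.Lib.MP_0f64a9_nt
theorem k10 : chk3 10 = true := by decide +kernel
theorem k22 : chk3 22 = true := by decide +kernel
theorem k34 : chk3 34 = true := by decide +kernel
theorem k46 : chk3 46 = true := by decide +kernel
theorem k58 : chk3 58 = true := by decide +kernel
theorem k70 : chk3 70 = true := by decide +kernel
theorem k82 : chk3 82 = true := by decide +kernel
theorem k94 : chk3 94 = true := by decide +kernel
theorem k106 : chk3 106 = true := by decide +kernel
theorem k118 : chk3 118 = true := by decide +kernel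
theorem k130 : chk3 130 = true := by decide +kernel
theorem k142 : chk3 142 = true := by decide +kernel
theorem k154 : chk3 154 = true := by decide +kernel
theorem k166 : chk3 166 = true := by decide +kernel
theorem k178 : chk3 178 = true := by decide +kernel
theorem k190 : chk3 190 = true := by decide +kernel
theorem k202 : chk3 202 = true := by decide +kernel
end Pool.Agent.Lib.MP_0f64a9_nt
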