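import Pool.Agent.Lib.MP_0f64a9_nt.Search

set_option autoImplicit false
namespace Pool.Agent.Lib.MP_0f64a9_nt
theorem k11 : chk3 11 = true := by decide +kernel
theorem k23 : chk3 23 = true := by decide +kernel
theorem k35 : chk3 35 = true := by decide +kernel
theorem k47 : chk3 47 = true := by decide +kernel
theorem k59 : chk3 59 = true := by decide +kernel
theorem k71 : chk3 71 = true := by decide +kernel
theorem k83 : chk3 83 = true := by decide +kernel
theorem k95 : chk3 95 = true := by decide +kernel
theorem k107 : chk3 107 = true := by decide +kernel
theorem k119 : chk3 119 = true := by decide +kernel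
theorem k131 : chk3 131 = true := by decide +kernel
theorem k143 : chk3 143 = true := by decide +kernel
theorem k155 : chk3 155 = true := by decide +kernel
theorem k167 : chk3 167 = true := by decide +kernel
theorem k179 : chk3 179 = true := by decide +kernel
theorem k191 : chk3 191 = true := by decide +kernel
theorem k203 : chk3 203 = true := by decide +kernel
end Pool.Agent.Lib.MP_0f64a9_nt
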