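import Pool.Agent.Lib.MP_0f64a9_nt.Search

set_option autoImplicit false
namespace Pool.Agent.Lib.MP_0f64a9_nt
theorem k2 : chk3 2 = true := by decide +kernel
theorem k14 : chk3 14 = true := by decide +kernel
theorem k26 : chk3 26 = true := by decide +kernel
theorem k38 : chk3 38 = true := by decide +kernel
theorem k50 : chk3 50 = true := by decide +kernel
theorem k62 : chk3 62 = true := by decide +kernel
theorem k74 : chk3 74 = true := by decide +kernel
theorem k86 : chk3 86 = true := by decide +kernel
theorem k98 : chk3 98 = true := by decide +kernel
theorem k110 : chk3 110 = true := by decide +kernel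
theorem k122 : chk3 122 = true := by decide +kernel
theorem k134 : chk3 134 = true := by decide +kernel
theorem k146 : chk3 146 = true := by decide +kernel
theorem k158 : chk3 158 = true := by decide +kernel
theorem k170 : chk3 170 = true := by decide +kernel
theorem k182 : chk3 182 = true := by decide +kernel
theorem k194 : chk3 194 = true := by decide +kernel
theorem k206 : chk3 206 = true := by decide +kernel
end Pool.Agent.Lib.MP_0f64a9_nt
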