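import Pool.Agent.Lib.MP_0f64a9_nt.Search

set_option autoImplicit false
namespace Pool.Agent.Lib.MP_0f64a9_nt
theorem k3 : chk3 3 = true := by decide +kernel
theorem k15 : chk3 15 = true := by decide +kernel
theorem k27 : chk3 27 = true := by decide +kernel
theorem k39 : chk3 39 = true := by decide +kernel
theorem k51 : chk3 51 = true := by decide +kernel
theorem k63 : chk3 63 = true := by decide +kernel
theorem k75 : chk3 75 = true := by decide +kernel
theorem k87 : chk3 87 = true := by decide +kernel
theorem k99 : chk3 99 = true := by decide +kernel
theorem k111 : chk3 111 = true := by decide +kernel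
theorem k123 : chk3 123 = true := by decide +kernel
theorem k135 : chk3 135 = true := by decide +kernel
theorem k147 : chk3 147 = true := by decide +kernel
theorem k159 : chk3 159 = true := by decide +kernel
theorem k171 : chk3 171 = true := by decide +kernel
theorem k183 : chk3 183 = true := by decide +kernel
theorem k195 : chk3 195 = true := by decide +kernel
theorem k207 : chk3 207 = true := by decide +kernel
end Pool.Agent.Lib.MP_0f64a9_nt
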