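import Pool.Agent.Lib.MP_0f64a9_nt.Search

set_option autoImplicit false
namespace Pool.Agent.Lib.MP_0f64a9_nt
theorem k4 : chk3 4 = true := by decide +kernel
theorem k16 : chk3 16 = true := by decide +kernel
theorem k28 : chk3 28 = true := by decide +kernel
theorem k40 : chk3 40 = true := by decide +kernel
theorem k52 : chk3 52 = true := by decide +kernel
theorem k64 : chk3 64 = true := by decide +kernel
theorem k76 : chk3 76 = true := by decide +kernel
theorem k88 : chk3 88 = true := by decide +kernel
theorem k100 : chk3 100 = true := by decide +kernel
theorem k112 : chk3 112 = true := by decide +kernel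
theorem k124 : chk3 124 = true := by decide +kernel
theorem k136 : chk3 136 = true := by decide +kernel
theorem k148 : chk3 148 = true := by decide +kernel
theorem k160 : chk3 160 = true := by decide +kernel
theorem k172 : chk3 172 = true := by decide +kernel
theorem k184 : chk3 184 = true := by decide +kernel
theorem k196 : chk3 196 = true := by decide +kernel
theorem k208 : chk3 208 = true := by decide +kernel
end Pool.Agent.Lib.MP_0f64a9_nt
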