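import Pool.Agent.Lib.MP_0f64a9_nt.Search

set_option autoImplicit false
namespace Pool.Agent.Lib.MP_0f64a9_nt
theorem k5 : chk3 5 = true := by decide +kernel
theorem k17 : chk3 17 = true := by decide +kernel
theorem k29 : chk3 29 = true := by decide +kernel
theorem k41 : chk3 41 = true := by decide +kernel
theorem k53 : chk3 53 = true := by decide +kernel
theorem k65 : chk3 65 = true := by decide +kernel
theorem k77 : chk3 77 = true := by decide +kernel
theorem k89 : chk3 89 = true := by decide +kernel
theorem k101 : chk3 101 = true := by decide +kernel
theorem k113 : chk3 113 = true := by decide +kernel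
theorem k125 : chk3 125 = true := by decide +kernel
theorem k137 : chk3 137 = true := by decide +kernel
theorem k149 : chk3 149 = true := by decide +kernel
theorem k161 : chk3 161 = true := by decide +kernel
theorem k173 : chk3 173 = true := by decide +kernel
theorem k185 : chk3 185 = true := by decide +kernel
theorem k197 : chk3 197 = true := by decide +kernel
theorem k209 : chk3 209 = true := by decide +kernel
end Pool.Agent.Lib.MP_0f64a9_nt
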