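import Pool.Agent.Lib.MP_0f64a9_nt.Search

set_option autoImplicit false
namespace Pool.Agent.Lib.MP_0f64a9_nt
theorem k6 : chk3 6 = true := by decide +kernel
theorem k18 : chk3 18 = true := by decide +kernel
theorem k30 : chk3 30 = true := by decide +kernel
theorem k42 : chk3 42 = true := by decide +kernel
theorem k54 : chk3 54 = true := by decide +kernel
theorem k66 : chk3 66 = true := by decide +kernel
theorem k78 : chk3 78 = true := by decide +kernel
theorem k90 : chk3 90 = true := by decide +kernel
theorem k102 : chk3 102 = true := by decide +kernel
theorem k114 : chk3 114 = true := by decide +kernel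
theorem k126 : chk3 126 = true := by decide +kernel
theorem k138 : chk3 138 = true := by decide +kernel
theorem k150 : chk3 150 = true := by decide +kernel
theorem k162 : chk3 162 = true := by decide +kernel
theorem k174 : chk3 174 = true := by decide +kernel
theorem k186 : chk3 186 = true := by decide +kernel
theorem k198 : chk3 198 = true := by decide +kernel
theorem k210 : chk3 210 = true := by decide +kernel
end Pool.Agent.Lib.MP_0f64a9_nt
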