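import Pool.Agent.Lib.MP_0f64a9_nt.Search

set_option autoImplicit false
namespace Pool.Agent.Lib.MP_0f64a9_nt
theorem k7 : chk3 7 = true := by decide +kernel
theorem k19 : chk3 19 = true := by decide +kernel
theorem k31 : chk3 31 = true := by decide +kernel
theorem k43 : chk3 43 = true := by decide +kernel
theorem k55 : chk3 55 = true := by decide +kernel
theorem k67 : chk3 67 = true := by decide +kernel
theorem k79 : chk3 79 = true := by decide +kernel
theorem k91 : chk3 91 = true := by decide +kernel
theorem k103 : chk3 103 = true := by decide +kernel
theorem k115 : chk3 115 = true := by decide +kernel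
theorem k127 : chk3 127 = true := by decide +kernel
theorem k139 : chk3 139 = true := by decide +kernel
theorem k151 : chk3 151 = true := by decide +kernel
theorem k163 : chk3 163 = true := by decide +kernel
theorem k175 : chk3 175 = true := by decide +kernel
theorem k187 : chk3 187 = true := by decide +kernel
theorem k199 : chk3 199 = true := by decide +kernel
end Pool.Agent.Lib.MP_0f64a9_nt
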