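import Pool.Agent.Lib.MP_0f64a9_nt.Search

set_option autoImplicit false
namespace Pool.Agent.Lib.MP_0f64a9_nt
theorem k8 : chk3 8 = true := by decide +kernel
theorem k20 : chk3 20 = true := by decide +kernel
theorem k32 : chk3 32 = true := by decide +kernel
theorem k44 : chk3 44 = true := by decide +kernel
theorem k56 : chk3 56 = true := by decide +kernel
theorem k68 : chk3 68 = true := by decide +kernel
theorem k80 : chk3 80 = true := by decide +kernel
theorem k92 : chk3 92 = true := by decide +kernel
theorem k104 : chk3 104 = true := by decide +kernel
theorem k116 : chk3 116 = true := by decide +kernel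
theorem k128 : chk3 128 = true := by decide +kernel
theorem k140 : chk3 140 = true := by decide +kernel
theorem k152 : chk3 152 = true := by decide +kernel
theorem k164 : chk3 164 = true := by decide +kernel
theorem k176 : chk3 176 = true := by decide +kernel
theorem k188 : chk3 188 = true := by decide +kernel
theorem k200 : chk3 200 = true := by decide +kernel
end Pool.Agent.Lib.MP_0f64a9_nt
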