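import Pool.Agent.Lib.MP_0f64a9_nt.Search

set_option autoImplicit false
namespace Pool.Agent.Lib.MP_0f64a9_nt
theorem k9 : chk3 9 = true := by decide +kernel
theorem k21 : chk3 21 = true := by decide +kernel
theorem k33 : chk3 33 = true := by decide +kernel
theorem k45 : chk3 45 = true := by decide +kernel
theorem k57 : chk3 57 = true := by decide +kernel
theorem k69 : chk3 69 = true := by decide +kernel
theorem k81 : chk3 81 = true := by decide +kernel
theorem k93 : chk3 93 = true := by decide +kernel
theorem k105 : chk3 105 = true := by decide +kernel
theorem k117 : chk3 117 = true := by decide +kernel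
theorem k129 : chk3 129 = true := by decide +kernel
theorem k141 : chk3 141 = true := by decide +kernel
theorem k153 : chk3 153 = true := by decide +kernel
theorem k165 : chk3 165 = true := by decide +kernel
theorem k177 : chk3 177 = true := by decide +kernel
theorem k189 : chk3 189 = true := by decide +kernel
theorem k201 : chk3 201 = true := by decide +kernel
end Pool.Agent.Lib.MP_0f64a9_nt
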