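import Init

set_option autoImplicit false
namespace Pool.Agent.Lib.MP_0f64a9_nt

/-- evaluate the argument before continuing -/
noncomputable def frc (x : Nat) (k : Nat → Bool) : Bool :=
  Nat.rec (motive := fun _ => Bool) (k 0) (fun m _ => k m) (Nat.succ x)

/-- if `x = 0` then `t` else `true` -/
noncomputable def ifz (x : Nat) (t : Bool) : Bool :=
  Nat.rec (motive := fun _ => Bool) t (fun _ _ => true) x

/-- zero iff `W = 0`; otherwise `k + 1` for the lowest bit `k` of `W` -/
def lowc (W : Nat) : Nat :=
  Nat.land (Nat.shiftRight (nat_lit 2093409947167464019996305951190389052411818794987719087246265020453586829711620419751820986658231156872204370539191714664571605779549254637956581394616718833079826344668087245776066580242349740830706117587429322410026351960487897199069745203436151368033677644393042252844441857785153674775136591837357882714803646147075513351137106123008819552327398036446324979878050222076809197441824786272310847819663235436413872591064551700851528862414694687648594351263633281635295519266140054791499921745414885078160578739033602488042029252208154408992768256)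
    (Nat.mul (nat_lit 8) (Nat.mod (Nat.gcd W (nat_lit 3291009114642412084309938365114701009965471731267159726697218048)) (nat_lit 227)))) (nat_lit 255)

/-- `P` holds for all bit positions of `W` -/
noncomputable def allB (P : Nat → Bool) (fuel : Nat) : Nat → Bool :=
  Nat.rec (motive := fun _ => Nat → Bool) (fun W => Nat.beq W 0)
    (fun _ ih W => Nat.rec (motive := fun _ => Bool) true
      (fun m _ => Bool.rec (motive := fun _ => Bool) false
        (ih (Nat.sub W (Nat.shiftLeft (nat_lit 1) m))) (P m)) (lowc W)) fuel

def OO : Nat := (nat_lit 1270499535481494028555327188398936222975495879793298926430555707222429598095713953829343168239185437926238313784057813368892491014146078460091410062117492812874032958324284661872536884753230881559939213827749852977199838595253878780499367340621150645220275119984201847115514797227941883387474382144596968887461964753737698589631753181828017280752984726514948511878571402848519585793)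
/-- periodic mask of 0..1 -/
def O2 : Nat := (nat_lit 1270499535481494028555327188398936222975495879793298926430555707994532920343450382481135109763375604588670602007866553438859219563843639455435385800200788799236325068969626362137829563033720098177630282951098726116244614138410933493118585082303329794124607370374685417191657530104661684179458099585422058555191504074899492002611461818742607010989898791425659280578409347570045288451)
/-- periodic mask of 0..2 -/
def O3 : Nat := (nat_lit 1270499535481494028555327188398936222975495879793298926430555709538739564838923239784718992811755937913535178455484033578792676663238761446123337276367380771960909290260309762668414919594698531413012421197796472394334165224725042918357020565667688091933271871155652557343942995858101285763425534467072237890650582717223078828570879092571786471463726921247080817978085237013096693767)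
/-- periodic mask of 0..3 -/
def O4 : Nat := (nat_lit 1270499535481494028555327188398936222975495879793298926430555712627152853829868954391886758908516604563264331350718993858659590862029005427499240228700564717410077732841676563729585632716655397883776697691191964950513267397353261768833891532396404687550600872717586837648513927364980488931360404230372596561568740001870252480489713640230145392411383180889923892777437015899199504399)
/-- periodic mask of 0..4 -/
def O5 : Nat := (nat_lit 1270499535481494028555327188398936222975495879793298926430555718803979431811760383606222291102037937862722637141188914418393419259609493390251046133366932608308414618004410165851927058960569130825305250677982950062871471742609699469787633465853837878785258875841455398257655790378738895267230143756973313903405054571164599784327382735546863234306695700175610042376140573671405125663)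
/-- periodic mask of 0..5 -/
def O6 : Nat := (nat_lit 1270499535481494028555327188398936222975495879793298926430555731157632587775543242034893355489080604461639248722128755537861076054770469315754657942699668390105088388329877370096609911448396596708362356651564920287587880433122574871695117332768704261254574882089192519475939516406255707938969622810174748587077683709753294392002720926180298918097320738746982341573547689215816368191)
/-- periodic mask of 0..6 -/
def O7 : Nat := (nat_lit 1270499535481494028555327188398936222975495879793298926430555755864938899703108958892235484263165937659472471884008437776796389645092421166761881561365139953698435928980811778585975616424051528474476568598728860737020697814148325675510085066598437026193206894584666761912506968461289333282448580916577617954422941986930683607353397307447170285678570815889726939968361920304638853247)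
/-- periodic mask of 0, -1 -/
def ON : Nat := (nat_lit 1905749303222241042832990782598404334463243819689948389645833560833644397143570930744014752358778156889357470676086720053338736521219117690137115093176239219311049437486426992808805327129846322339908820741624779465799757892880818170749051010931725967830412679976302770673272195841912825081211573216895453331192947130606547884447629772742025921129477089772422767817857104272779378689)
/-- periodic mask of -1, 0, 1 -/
def OB : Nat := (nat_lit 1905749303222241042832990782598404334463243819689948389645833561605747719391307359395806693882968323551789758899895460123305465070916678685481090831259535205673341548131768693074098005410335538957599889864973652604844533436037872883368268752613905116734744930366786340749414928718632625873195290657720542998922486451768341297427338409656615651366391154683133536517695048994305081347)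
def FL : Nat := (nat_lit 3291009114642412084309938365114701009965471731267159726697218047)
/-- periodic mask of halves of 0..0 -/
def H1 : Nat := (nat_lit 1270499535481494028555327188398936222975495879793298926430555707222429598095713953829343168239185437926238313784057813368892491014146078460091410062117492812874032958324284661872536884753230881559939213827749852977199838595253878780499367340621150645220275119984201847115514797227941883387474382144596968887461964753737698589631753181828017280752984726514948511878571402848519585793)
/-- periodic mask of halves of 0..1 -/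
def H2 : Nat := (nat_lit 1270499535481494028555327188398967543207172217492868607016139940554555875632350595518456868282751265719724170678320475843216987259288584237769549423287280515788824547332961435391949637260775086145947110144234295598995423687560060130855630579657613284509194296925430315640997920761067556655939868172089615318189778448130083461709040877949350830519988193735968629419821751625578446849)
/-- periodic mask of halves of 0..2 -/
def H3 : Nat := (nat_lit 1270499535481494028555327188398967543207172217492868607016139941326659197880087024170248809806941432382156458902129215913183715808986145233113525161370576502151116657978303135657242315541264302763638179267583168738040199230717114843474848321339792433413526547315913885717140653637787357447923585612914704985919317769291876874688749514863940560756902258646679398119659696347104149507)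
/-- periodic mask of halves of 0..3 -/
def H4 : Nat := (nat_lit 1270499535481494028555327188399030183670524892892007968187308407990911752953360307548476209894073087969128172690654540861832708299271156788469803883710151907980699835995656682696067820556352711935653971900552053981631369415329477544187374799412717711991364901198370822768106900704038703984854557667899997847374945158076646618843324907106607660290909193088719633202160393901221871619)
/-- periodic mask of halves of 0..4 -/
def H5 : Nat := (nat_lit 1270499535481494028555327188399030183670524892892007968187308409535118397448833164852060092942453421293992749138272021001766165398666278779157755359876743880705284057286340083226653177117331145171036110147249800259720920501643586969425810282777076009800029401979337962920392366457478305568821992549550177182834023800400233444802742180935787120764737322910141170601836283344273276935)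
/-- periodic mask of halves of 0..5 -/
def H6 : Nat := (nat_lit 1270499535481494028555327188399155464597230243690286690529645342863623507595379731608514893116716732467936176715322670899064150379236301889870312804555894692364450413321047177304304187147507963515067695413187570746903260870868312370850863238922926566955706109744251837022324860589980998642683936659520762905745278577969772933111892965421121319832751191794221640766837678452508721159)
/-- periodic mask of halves of 0..6 -/
def H7 : Nat := (nat_lit 1270499535481494028555327188399155464597230243690286690529645345952036796586325446215682659213477399117665329610557631178931064578026545871246215756889078637813618855902413978365474900269464829985831971906583063303082363043496531221327734205651643162573035111306186117326895792096860201810618806422821121576663435862616946585030727513079480240780407451437064715566189457338611531791)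
/-- complement of `F` inside 211 bits -/
def cmp (F : Nat) : Nat := Nat.xor FL (Nat.land FL F)

/-- unions of shifts by 0..k-1 -/
def S2 (T : Nat) : Nat := Nat.lor T (Nat.shiftRight T (nat_lit 1))
def S3 (T : Nat) : Nat := Nat.lor (S2 T) (Nat.shiftRight T (nat_lit 2))
def S4 (T : Nat) : Nat := Nat.lor (S2 T) (Nat.shiftRight (S2 T) (nat_lit 2))
def S5 (T : Nat) : Nat := Nat.lor (S3 T) (Nat.shiftRight (S3 T) (nat_lit 2))
def S6 (T : Nat) : Nat := Nat.lor (S4 T) (Nat.shiftRight (S4 T) (nat_lit 2))

/-- powers of two -/
def T2 : Nat := (nat_lit 1270499535481494028555327188398936222975495879793298926430555805279551523558240392606919741811336604055138918207767802254667016825736324868776328798696083080885131010282680595564707026375361392006704992493056741635886332576199827283140020534257902556070470919575615246785641872571356583969406497129383356689113458541285462038054750069980913020841070970175216136757990382482283823359)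

def N3 (a : Nat) : Nat :=
  Nat.lor (Nat.lor (Nat.lor (Nat.shiftRight O7 (Nat.sub (nat_lit 211) a))
    (Nat.shiftRight O5 (Nat.sub (nat_lit 422) (Nat.mul (nat_lit 2) a))))
    (Nat.shiftRight O3 (Nat.sub (nat_lit 633) (Nat.mul (nat_lit 3) a))))
    (Nat.shiftRight O2 (Nat.sub (nat_lit 844) (Nat.mul (nat_lit 4) a)))

/-- periodic mask of halves of 0..7 -/
def H8 : Nat := (nat_lit 1270499535481494028555327188399406026450640945286844135214319212609047016879418579728592259562004021465552184764658930973527034539166592092671330646247380261131951567971828166520776920329818466673895142438458604277447043781945982024177840117943344276884388526836013865530760780361865587958342694642762293022485945417756025561649029082050148638916435189205225655896192247555082420239)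
def TH3 (ah : Nat) : Nat :=
  Nat.lor (Nat.lor (Nat.lor (Nat.lor (H8) (Nat.shiftRight H7 (Nat.sub (nat_lit 211) (ah)))) (Nat.shiftRight H5 (Nat.sub (nat_lit 422) (Nat.mul (nat_lit 2) ah)))) (Nat.shiftRight H3 (Nat.sub (nat_lit 633) (Nat.mul (nat_lit 3) ah)))) (Nat.shiftRight H2 (Nat.sub (nat_lit 844) (Nat.mul (nat_lit 4) ah)))

def forb5 (T a : Nat) : Nat :=
  Nat.lor (Nat.lor (Nat.lor ((S6 T)) (Nat.shiftRight (S4 T) (a))) (Nat.shiftRight (S3 T) (Nat.mul (nat_lit 2) a))) (Nat.shiftRight T (Nat.mul (nat_lit 3) a))

def M5 (a : Nat) : Nat :=
  Nat.lor (Nat.lor (Nat.lor (O6) (Nat.shiftRight O4 (Nat.sub (nat_lit 211) (a)))) (Nat.shiftRight O3 (Nat.sub (nat_lit 422) (Nat.mul (nat_lit 2) a)))) (Nat.shiftRight OO (Nat.sub (nat_lit 633) (Nat.mul (nat_lit 3) a)))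

def M25 (a : Nat) : Nat :=
  Nat.lor (O4) (Nat.shiftRight O2 (Nat.sub (nat_lit 211) (a)))

def M5h (a : Nat) : Nat :=
  Nat.lor (Nat.lor (Nat.lor (H6) (Nat.shiftRight H4 (Nat.sub (nat_lit 211) (a)))) (Nat.shiftRight H3 (Nat.sub (nat_lit 422) (Nat.mul (nat_lit 2) a)))) (Nat.shiftRight H1 (Nat.sub (nat_lit 633) (Nat.mul (nat_lit 3) a)))

def M25h (a : Nat) : Nat :=
  Nat.lor (H4) (Nat.shiftRight H2 (Nat.sub (nat_lit 211) (a)))

def forb7 (T a b : Nat) : Nat :=
  Nat.lor (Nat.lor (Nat.lor (Nat.lor (Nat.lor (Nat.lor ((S5 T)) (Nat.shiftRight (S4 T) (a))) (Nat.shiftRight (S3 T) (b))) (Nat.shiftRight (S2 T) (Nat.mul (nat_lit 2) a))) (Nat.shiftRight (S2 T) (Nat.add (a) (b)))) (Nat.shiftRight T (Nat.mul (nat_lit 2) b))) (Nat.shiftRight T (Nat.mul (nat_lit 3) a))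

def M7 (a b : Nat) : Nat :=
  Nat.lor (Nat.lor (Nat.lor (Nat.lor (Nat.lor (Nat.lor (O5) (Nat.shiftRight O4 (Nat.sub (nat_lit 211) (a)))) (Nat.shiftRight O3 (Nat.sub (nat_lit 211) (b)))) (Nat.shiftRight O2 (Nat.sub (nat_lit 422) (Nat.mul (nat_lit 2) a)))) (Nat.shiftRight O2 (Nat.sub (nat_lit 422) (Nat.add (a) (b))))) (Nat.shiftRight OO (Nat.sub (nat_lit 422) (Nat.mul (nat_lit 2) b)))) (Nat.shiftRight OO (Nat.sub (nat_lit 633) (Nat.mul (nat_lit 3) a)))

def M49 (a : Nat) : Nat :=
  Nat.lor (O3) (Nat.shiftRight OO (Nat.sub (nat_lit 211) (a)))

def M7h (a b : Nat) : Nat :=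
  Nat.lor (Nat.lor (Nat.lor (Nat.lor (Nat.lor (Nat.lor (H5) (Nat.shiftRight H4 (Nat.sub (nat_lit 211) (a)))) (Nat.shiftRight H3 (Nat.sub (nat_lit 211) (b)))) (Nat.shiftRight H2 (Nat.sub (nat_lit 422) (Nat.mul (nat_lit 2) a)))) (Nat.shiftRight H2 (Nat.sub (nat_lit 422) (Nat.add (a) (b))))) (Nat.shiftRight H1 (Nat.sub (nat_lit 422) (Nat.mul (nat_lit 2) b)))) (Nat.shiftRight H1 (Nat.sub (nat_lit 633) (Nat.mul (nat_lit 3) a)))

def M49h (a : Nat) : Nat :=
  Nat.lor (H3) (Nat.shiftRight H1 (Nat.sub (nat_lit 211) (a)))

def M11p (a b : Nat) : Nat :=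
  Nat.lor (Nat.lor (Nat.lor (Nat.lor (O5) (Nat.shiftRight O3 (Nat.sub (nat_lit 211) (a)))) (Nat.shiftRight O2 (Nat.sub (nat_lit 211) (b)))) (Nat.shiftRight O2 (Nat.sub (nat_lit 422) (Nat.mul (nat_lit 2) a)))) (Nat.shiftRight OO (Nat.sub (nat_lit 422) (Nat.add (a) (b))))

def M13p (a b : Nat) : Nat :=
  Nat.lor (Nat.lor (Nat.lor (Nat.lor (O5) (Nat.shiftRight O3 (Nat.sub (nat_lit 211) (a)))) (Nat.shiftRight O2 (Nat.sub (nat_lit 211) (b)))) (Nat.shiftRight OO (Nat.sub (nat_lit 422) (Nat.mul (nat_lit 2) a)))) (Nat.shiftRight OO (Nat.sub (nat_lit 422) (Nat.add (a) (b))))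

def R13 (T a b : Nat) : Nat :=
  Nat.lor (Nat.lor (Nat.lor (Nat.lor ((S5 T)) (Nat.shiftRight (S3 T) (a))) (Nat.shiftRight (S2 T) (b))) (Nat.shiftRight T (Nat.mul (nat_lit 2) a))) (Nat.shiftRight T (Nat.add (a) (b)))

def forb17 (T a b c d : Nat) : Nat :=
  Nat.lor (Nat.lor (Nat.lor (Nat.lor (Nat.lor ((S4 T)) (Nat.shiftRight (S3 T) (a))) (Nat.shiftRight (S2 T) (b))) (Nat.shiftRight T (c))) (Nat.shiftRight T (Nat.mul (nat_lit 2) a))) (Nat.shiftRight T (d))

def M17 (a b c d : Nat) : Nat :=
  Nat.lor (Nat.lor (Nat.lor (Nat.lor (Nat.lor (O4) (Nat.shiftRight O3 (Nat.sub (nat_lit 211) (a)))) (Nat.shiftRight O2 (Nat.sub (nat_lit 211) (b)))) (Nat.shiftRight OO (Nat.sub (nat_lit 211) (c)))) (Nat.shiftRight OO (Nat.sub (nat_lit 422) (Nat.mul (nat_lit 2) a)))) (Nat.shiftRight OO (Nat.sub (nat_lit 211) (d)))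

def forb19 (T a b c d : Nat) : Nat :=
  Nat.lor (Nat.lor (Nat.lor (Nat.lor (Nat.lor ((S4 T)) (Nat.shiftRight (S2 T) (a))) (Nat.shiftRight (S2 T) (b))) (Nat.shiftRight T (c))) (Nat.shiftRight T (Nat.mul (nat_lit 2) a))) (Nat.shiftRight T (d))

def M19 (a b c d : Nat) : Nat :=
  Nat.lor (Nat.lor (Nat.lor (Nat.lor (Nat.lor (O4) (Nat.shiftRight O2 (Nat.sub (nat_lit 211) (a)))) (Nat.shiftRight O2 (Nat.sub (nat_lit 211) (b)))) (Nat.shiftRight OO (Nat.sub (nat_lit 211) (c)))) (Nat.shiftRight OO (Nat.sub (nat_lit 422) (Nat.mul (nat_lit 2) a)))) (Nat.shiftRight OO (Nat.sub (nat_lit 211) (d)))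

def forb23 (T a b c : Nat) : Nat :=
  Nat.lor (Nat.lor (Nat.lor (Nat.lor ((S4 T)) (Nat.shiftRight (S2 T) (a))) (Nat.shiftRight T (b))) (Nat.shiftRight T (c))) (Nat.shiftRight T (Nat.mul (nat_lit 2) a))

def M23 (a b c : Nat) : Nat :=
  Nat.lor (Nat.lor (Nat.lor (Nat.lor (O4) (Nat.shiftRight O2 (Nat.sub (nat_lit 211) (a)))) (Nat.shiftRight OO (Nat.sub (nat_lit 211) (b)))) (Nat.shiftRight OO (Nat.sub (nat_lit 211) (c)))) (Nat.shiftRight OO (Nat.sub (nat_lit 422) (Nat.mul (nat_lit 2) a)))

def forb29 (T a b c : Nat) : Nat :=
  Nat.lor (Nat.lor (Nat.lor ((S3 T)) (Nat.shiftRight (S2 T) (a))) (Nat.shiftRight T (b))) (Nat.shiftRight T (c))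

def M29 (a b c : Nat) : Nat :=
  Nat.lor (Nat.lor (Nat.lor (O3) (Nat.shiftRight O2 (Nat.sub (nat_lit 211) (a)))) (Nat.shiftRight OO (Nat.sub (nat_lit 211) (b)))) (Nat.shiftRight OO (Nat.sub (nat_lit 211) (c)))

def forb31 (T a b : Nat) : Nat :=
  Nat.lor (Nat.lor ((S3 T)) (Nat.shiftRight (S2 T) (a))) (Nat.shiftRight T (b))

def M31 (a b : Nat) : Nat :=
  Nat.lor (Nat.lor (O3) (Nat.shiftRight O2 (Nat.sub (nat_lit 211) (a)))) (Nat.shiftRight OO (Nat.sub (nat_lit 211) (b)))

def forb37 (T a b : Nat) : Nat :=
  Nat.lor (Nat.lor ((S3 T)) (Nat.shiftRight T (a))) (Nat.shiftRight T (b))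

def M37 (a b : Nat) : Nat :=
  Nat.lor (Nat.lor (O3) (Nat.shiftRight OO (Nat.sub (nat_lit 211) (a)))) (Nat.shiftRight OO (Nat.sub (nat_lit 211) (b)))

/-- half of `x` modulo 211 -/
def hlf (x : Nat) : Nat := Nat.mod (Nat.mul (nat_lit 106) x) (nat_lit 211)

def N5 (b m m2 : Nat) : Nat :=
  Nat.lor (Nat.lor (Nat.shiftRight m (Nat.sub (nat_lit 211) b))
    (Nat.shiftRight m2 (Nat.sub (nat_lit 422) (Nat.mul (nat_lit 2) b))))
    (Nat.shiftRight OO (Nat.sub (nat_lit 633) (Nat.mul (nat_lit 3) b)))

/-- halves of the new numbers at level 5 -/
def N5h (b mh m2h : Nat) : Nat :=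
  Nat.lor (Nat.lor (Nat.shiftRight mh (Nat.sub (nat_lit 211) (hlf b)))
    (Nat.shiftRight m2h (Nat.sub (nat_lit 211) b)))
    (Nat.shiftRight OO (Nat.sub (nat_lit 633) (Nat.mul (nat_lit 3) (hlf b))))

def N7 (c m m2 : Nat) : Nat :=
  Nat.lor (Nat.shiftRight m (Nat.sub (nat_lit 211) c))
    (Nat.shiftRight m2 (Nat.sub (nat_lit 422) (Nat.mul (nat_lit 2) c)))

def N11 (d m : Nat) : Nat :=
  Nat.lor (Nat.shiftRight m (Nat.sub (nat_lit 211) d))
    (Nat.shiftRight OO (Nat.sub (nat_lit 422) (Nat.mul (nat_lit 2) d)))

def NL (e m : Nat) : Nat := Nat.shiftRight m (Nat.sub (nat_lit 211) e)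

noncomputable def chk37 (a b T e : Nat) : Bool :=
  frc (Nat.lor T (NL e (M37 a b))) fun T =>
    allB (fun _ => false) (nat_lit 211) (cmp (forb37 T a b))

noncomputable def chk31 (a b T e : Nat) : Bool :=
  frc (Nat.lor T (NL e (M31 a b))) fun T =>
    allB (chk37 a b T) (nat_lit 211) (cmp (forb37 T a b))

noncomputable def chk29 (a b c T e : Nat) : Bool :=
  frc (Nat.lor T (NL e (M29 a b c))) fun T =>
    allB (chk31 a b T) (nat_lit 211) (cmp (forb31 T a b))

noncomputable def chk23 (a b c T e : Nat) : Bool :=
  frc (Nat.lor T (NL e (M23 a b c))) fun T =>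
    allB (chk29 a b c T) (nat_lit 211) (cmp (forb29 T a b c))

noncomputable def chk19 (a b c d T e : Nat) : Bool :=
  frc (Nat.lor T (NL e (M19 a b c d))) fun T =>
    allB (chk23 a b c T) (nat_lit 211) (cmp (forb23 T a b c))

noncomputable def chk17 (a b c d T e : Nat) : Bool :=
  frc (Nat.lor T (NL e (M17 a b c d))) fun T =>
    allB (chk19 a b c d T) (nat_lit 211) (cmp (forb19 T a b c d))

/-- mask of the numbers up to 16 that are products of 2, 3, 5, 7, 11 -/
def M13 (mp c d : Nat) : Nat :=
  Nat.lor (Nat.lor mp (Nat.shiftRight O2 (Nat.sub (nat_lit 211) c)))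
    (Nat.shiftRight OO (Nat.sub (nat_lit 211) d))

noncomputable def chk13 (a b c mp T d e : Nat) : Bool :=
  ifz (Nat.land (nat_lit 1) (Nat.shiftRight T (Nat.mul (nat_lit 2) e)))
      (frc (Nat.lor T (N11 e (M13 mp c d))) fun T =>
        allB (chk17 a b c d T) (nat_lit 211) (cmp (forb17 T a b c d)))

noncomputable def chk11 (a b c mp m FM GO H T d : Nat) : Bool :=
  allB (chk13 a b c mp (Nat.lor T (N11 d m)) d) (nat_lit 211)
    (cmp (Nat.lor (Nat.lor (Nat.lor FM (Nat.shiftRight GO (Nat.sub (nat_lit 211) d)))
      (Nat.shiftRight H (Nat.sub (nat_lit 422) (Nat.mul (nat_lit 2) d)))) (Nat.shiftRight T d)))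

/-- difference masks at level 7 -/
def dm (E Tq G7 G49 c : Nat) : Nat :=
  Nat.lor (Nat.lor (Nat.lor E (Nat.shiftRight Tq c)) (Nat.shiftRight G7 (Nat.sub (nat_lit 211) c)))
    (Nat.shiftRight G49 (Nat.sub (nat_lit 422) (Nat.mul (nat_lit 2) c)))

/-- half mask at level 7 -/
def hm (Th m7h m49h c : Nat) : Nat :=
  Nat.lor (Nat.lor Th (Nat.shiftRight m7h (Nat.sub (nat_lit 211) (hlf c))))
    (Nat.shiftRight m49h (Nat.sub (nat_lit 211) c))

/-- union with the shift belonging to 18 -/
def R18 (E T a : Nat) : Nat :=
  Nat.lor E (Nat.shiftRight T (Nat.add (Nat.mul (nat_lit 2) a) (nat_lit 1)))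

noncomputable def chk7 (a b T Th m7 m49 m7h m49h m11p mp E13 G713 G4913 E11 G711 G4911 Tq G0 G1 M11q H0 c : Nat) : Bool :=
  frc (Nat.lor m11p (Nat.shiftRight O2 (Nat.sub (nat_lit 211) c))) fun m =>
  frc (Nat.lor m (dm E13 Tq G713 G4913 c)) fun FM =>
  frc (Nat.lor (Nat.lor G0 (Nat.shiftRight G1 (Nat.sub (nat_lit 211) c))) (Nat.shiftRight M11q c)) fun GO =>
  frc (Nat.lor H0 (Nat.shiftRight ON c)) fun H =>
  frc (Nat.lor T (N7 c m7 m49)) fun T =>
    allB (chk11 a b c mp m FM GO H T) (nat_lit 211)
      (cmp (Nat.lor (dm E11 Tq G711 G4911 c) (hm Th m7h m49h c)))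

/-- excluded values at level 7 coming from the multiples of 49 -/
def hb7 (Th a : Nat) : Nat :=
  Nat.lor (Nat.lor (Nat.lor Th (Nat.shiftRight Th (nat_lit 106))) (Nat.shiftRight Th (nat_lit 1)))
    (Nat.shiftRight Th (hlf a))

noncomputable def chk5 (a m49 m49h T Th m5 m25 m5h m25h b : Nat) : Bool :=
  ifz (Nat.land FL (Nat.land T (N5 b m5 m25)))
   (frc (Nat.lor T (N5 b m5 m25)) fun T =>
    frc (Nat.lor Th (N5h b m5h m25h)) fun Th =>
    frc (M7 a b) fun m7 =>
    frc (M7h (hlf a) (hlf b)) fun m7h =>
    frc (M11p a b) fun m11p =>
    frc (M13p a b) fun mp =>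
    frc (Nat.lor (R13 T a b) (S2 m7)) fun E13 =>
    frc (Nat.lor (R13 m7 a b) (S2 m49)) fun G713 =>
    frc (R13 m49 a b) fun G4913 =>
    frc (R18 E13 T a) fun E11 =>
    frc (R18 G713 m7 a) fun G711 =>
    frc (R18 G4913 m49 a) fun G4911 =>
    frc (S2 T) fun Tq =>
    frc (Nat.lor (R13 m11p a b) OB) fun G0 =>
    frc (R13 O2 a b) fun G1 =>
    frc (S2 m11p) fun M11q =>
    frc (R13 OO a b) fun H0 =>
      allB (chk7 a b T Th m7 m49 m7h m49h m11p mp E13 G713 G4913 E11 G711 G4911 Tq G0 G1 M11q H0)
        (nat_lit 211) (cmp (Nat.lor (forb7 T a b) (hb7 Th a))))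

noncomputable def chk3 (a : Nat) : Bool :=
  ifz (Nat.land FL (Nat.land T2 (N3 a)))
   (frc (Nat.lor T2 (N3 a)) fun T =>
    frc (TH3 (hlf a)) fun Th =>
    frc (M5 a) fun m5 => frc (M25 a) fun m25 =>
    frc (M5h (hlf a)) fun m5h => frc (M25h (hlf a)) fun m25h =>
    frc (M49 a) fun m49 => frc (M49h (hlf a)) fun m49h =>
      allB (chk5 a m49 m49h T Th m5 m25 m5h m25h) (nat_lit 211) (cmp (forb5 T a)))

end Pool.Agent.Lib.MP_0f64a9_nt
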