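import Mathlib
import Pool.Agent.Lib.MP_0f64a9_nt.Search

set_option autoImplicit false
set_option linter.all false
namespace Pool.Agent.Lib.MP_0f64a9_nt

/-- `m` has no prime factor `≥ q0` -/
def NS (q0 m : ℕ) : Prop := ∀ r, Nat.Prime r → q0 ≤ r → ¬ r ∣ m

theorem NS.mul {q0 a b : ℕ} (ha : NS q0 a) (hb : NS q0 b) : NS q0 (a * b) := by
  intro r hr hq hd
  rcases (Nat.Prime.dvd_mul hr).mp hd with h | h
  · exact ha r hr hq h
  · exact hb r hr hq h

theorem NS.one {q0 : ℕ} : NS q0 1 := fun r hr _ hd => hr.one_lt.ne' (Nat.dvd_one.mp hd)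

theorem NS.prime {q0 p : ℕ} (hp : Nat.Prime p) (h : p < q0) : NS q0 p := by
  intro r hr hq hd
  have := (Nat.prime_dvd_prime_iff_eq hr hp).mp hd
  omega

theorem NS.pow {q0 a : ℕ} (ha : NS q0 a) (n : ℕ) : NS q0 (a ^ n) := by
  induction n with
  | zero => simpa using NS.one
  | succ n ih => rw [pow_succ]; exact ih.mul ha

theorem NS.mono {q0 q1 m : ℕ} (h : NS q0 m) (hq : q0 ≤ q1) : NS q1 m :=
  fun r hr hq' => h r hr (hq.trans hq')

/-- a completely additive map to `ℤ/211`, injective on `[1, 211]`, with `f 2 = 1` -/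
structure Good (f : ℕ → ℕ) : Prop where
  lt : ∀ m, f m < 211
  mul : ∀ m n, 0 < m → 0 < n → f (m * n) = (f m + f n) % 211
  two : f 2 = 1
  inj : ∀ m n, 1 ≤ m → m ≤ 211 → 1 ≤ n → n ≤ 211 → f m = f n → m = n

/-- every bit `j` of `X` satisfies `l j + f m2 ≡ f m1` for some admissible `m1, m2` -/
def InvD (f : ℕ → ℕ) (l q0 K1 K2 X : ℕ) : Prop :=
  ∀ j, X.testBit j = true → ∃ m1 m2, 1 ≤ m1 ∧ m1 ≤ K1 ∧ 1 ≤ m2 ∧ m2 ≤ K2 ∧ NS q0 m1 ∧
    (l * j + f m2) % 211 = f m1

section
variable {f : ℕ → ℕ}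

theorem Good.one (hf : Good f) : f 1 = 0 := by
  have h := hf.mul 1 1 (by norm_num) (by norm_num)
  have := hf.lt 1
  norm_num at h
  omega

theorem Good.v (hf : Good f) {m n k : ℕ} (h : m * n = k) (hm : 0 < m) (hn : 0 < n) :
    f k = (f m + f n) % 211 := by subst h; exact hf.mul m n hm hn

theorem Good.pow2 (hf : Good f) (i : ℕ) (hi : i < 211) : f (2 ^ i) = i := by
  induction i with
  | zero => simpa using hf.one
  | succ n ih =>
    rw [pow_succ, hf.mul _ _ (by positivity) (by norm_num), ih (by omega), hf.two]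
    omega

theorem InvD.mono {l q0 K1 K2 q0' K1' K2' X : ℕ} (h : InvD f l q0 K1 K2 X) (hq : q0 ≤ q0')
    (h1 : K1 ≤ K1') (h2 : K2 ≤ K2') : InvD f l q0' K1' K2' X := by
  intro j hj
  obtain ⟨m1, m2, a, b, c, d, e, g⟩ := h j hj
  exact ⟨m1, m2, a, b.trans h1, c, d.trans h2, e.mono hq, g⟩

theorem InvD.or {l q0 K1 K2 X Y : ℕ} (h : InvD f l q0 K1 K2 X) (h' : InvD f l q0 K1 K2 Y) :
    InvD f l q0 K1 K2 (Nat.lor X Y) := by
  intro j hj
  have : (X ||| Y).testBit j = true := hj
  rw [Nat.testBit_or, Bool.or_eq_true] at this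
  rcases this with h1 | h1
  · exact h j h1
  · exact h' j h1

theorem InvD.up (hf : Good f) {l q0 K1 K2 X : ℕ} (h : InvD f l q0 K1 K2 X) (k s : ℕ)
    (hk : NS q0 k) (hk0 : 0 < k) (hs : (l * s + f k) % 211 = 0) :
    InvD f l q0 (k * K1) K2 (Nat.shiftRight X s) := by
  intro j hj
  have : (X >>> s).testBit j = true := hj
  rw [Nat.testBit_shiftRight] at this
  obtain ⟨m1, m2, a, b, c, d, e, g⟩ := h _ this
  refine ⟨k * m1, m2, Nat.mul_pos hk0 a, Nat.mul_le_mul_left k b, c, d, hk.mul e, ?_⟩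
  rw [hf.mul k m1 hk0 a]
  rw [Nat.mul_add] at g
  omega

theorem InvD.down (hf : Good f) {l q0 K1 K2 X : ℕ} (h : InvD f l q0 K1 K2 X) (k s : ℕ)
    (hk0 : 0 < k) (hs : (l * s) % 211 = f k) :
    InvD f l q0 K1 (k * K2) (Nat.shiftRight X s) := by
  intro j hj
  have : (X >>> s).testBit j = true := hj
  rw [Nat.testBit_shiftRight] at this
  obtain ⟨m1, m2, a, b, c, d, e, g⟩ := h _ this
  refine ⟨m1, k * m2, a, b, Nat.mul_pos hk0 c, Nat.mul_le_mul_left k d, e, ?_⟩
  rw [hf.mul k m2 hk0 c]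
  rw [Nat.mul_add] at g
  omega

theorem InvD.both (hf : Good f) {l q0 K1 K2 X : ℕ} (h : InvD f l q0 K1 K2 X) (k : ℕ)
    (hk : NS q0 k) (hk0 : 0 < k) : InvD f l q0 (k * K1) (k * K2) X := by
  intro j hj
  obtain ⟨m1, m2, a, b, c, d, e, g⟩ := h j hj
  refine ⟨k * m1, k * m2, Nat.mul_pos hk0 a, Nat.mul_le_mul_left k b, Nat.mul_pos hk0 c,
    Nat.mul_le_mul_left k d, hk.mul e, ?_⟩
  rw [hf.mul k m1 hk0 a, hf.mul k m2 hk0 c]
  omega

theorem InvD.excl (hf : Good f) {q0 K1 K2 X : ℕ} (h : InvD f 1 q0 K1 K2 X) (q : ℕ)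
    (hq : Nat.Prime q) (hq0 : q0 ≤ q) (h1 : K1 ≤ 211) (h2 : q * K2 ≤ 211) :
    X.testBit (f q) = false := by
  by_contra hc
  obtain ⟨m1, m2, a, b, c, d, e, g⟩ := h (f q) (by simpa using hc)
  have h3 : f (q * m2) = f m1 := by
    rw [hf.mul q m2 hq.pos c, ← g, Nat.one_mul]
  have h4 := hf.inj (q * m2) m1 (Nat.mul_pos hq.pos c) ((Nat.mul_le_mul_left q d).trans h2) a
    (b.trans h1) h3
  exact e q hq hq0 (h4 ▸ Dvd.intro m2 rfl)

theorem InvD.excl2 (hf : Good f) {q0 K1 K2 X : ℕ} (h : InvD f 2 q0 K1 K2 X) (q : ℕ)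
    (hq : Nat.Prime q) (hq0 : q0 ≤ q) (h1 : K1 ≤ 211) (h2 : q * q * K2 ≤ 211) :
    X.testBit (f q) = false := by
  by_contra hc
  obtain ⟨m1, m2, a, b, c, d, e, g⟩ := h (f q) (by simpa using hc)
  have h3 : f (q * q * m2) = f m1 := by
    rw [hf.mul (q * q) m2 (Nat.mul_pos hq.pos hq.pos) c, hf.mul q q hq.pos hq.pos, ← g]
    omega
  have h4 := hf.inj (q * q * m2) m1 (Nat.mul_pos (Nat.mul_pos hq.pos hq.pos) c)
    ((Nat.mul_le_mul_left _ d).trans h2) a (b.trans h1) h3
  exact e q hq hq0 (h4 ▸ ⟨q * m2, by ring⟩)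

/-- the bit `2 f(q)` is not set -/
theorem InvD.exclsq (hf : Good f) {q0 K1 X : ℕ} (h : InvD f 1 q0 K1 1 X) (q : ℕ)
    (hq : Nat.Prime q) (hq0 : q0 ≤ q) (h1 : K1 ≤ 211) (h2 : q * q ≤ 211) :
    X.testBit (2 * f q) = false := by
  by_contra hc
  obtain ⟨m1, m2, a, b, c, d, e, g⟩ := h (2 * f q) (by simpa using hc)
  have hm2 : m2 = 1 := by omega
  subst hm2
  have h3 : f (q * q) = f m1 := by
    rw [hf.mul q q hq.pos hq.pos, ← g, hf.one]
    omega
  have h4 := hf.inj (q * q) m1 (Nat.mul_pos hq.pos hq.pos) h2 a (b.trans h1) h3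
  exact e q hq hq0 (h4 ▸ ⟨q, rfl⟩)

/-- every bit of `X` belongs to a multiple of `q` -/
def InvQ (f : ℕ → ℕ) (q X : ℕ) : Prop :=
  ∀ j, X.testBit j = true → ∃ m, 1 ≤ m ∧ m ≤ 211 ∧ q ∣ m ∧ j % 211 = f m

theorem InvQ.or {q X Y : ℕ} (h : InvQ f q X) (h' : InvQ f q Y) : InvQ f q (Nat.lor X Y) := by
  intro j hj
  have : (X ||| Y).testBit j = true := hj
  rw [Nat.testBit_or, Bool.or_eq_true] at this
  rcases this with h1 | h1
  · exact h j h1
  · exact h' j h1

theorem InvD.upQ (hf : Good f) {q0 K1 X : ℕ} (h : InvD f 1 q0 K1 1 X) (q k s : ℕ)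
    (hk0 : 0 < k) (hqk : q ∣ k) (hk1 : k * K1 ≤ 211) (hs : (s + f k) % 211 = 0) :
    InvQ f q (Nat.shiftRight X s) := by
  intro j hj
  have : (X >>> s).testBit j = true := hj
  rw [Nat.testBit_shiftRight] at this
  obtain ⟨m1, m2, a, b, c, d, e, g⟩ := h _ this
  have hm2 : m2 = 1 := by omega
  subst hm2
  refine ⟨k * m1, Nat.mul_pos hk0 a, (Nat.mul_le_mul_left k b).trans hk1, hqk.mul_right _, ?_⟩
  rw [hf.mul k m1 hk0 a]
  rw [hf.one] at g
  omega

theorem land_zero (hf : Good f) {q0 T N : ℕ} (hT : InvD f 1 q0 211 1 T) (q : ℕ) (hN : InvQ f q N)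
    (hq : Nat.Prime q) (hq0 : q0 ≤ q) (F : ℕ) : Nat.land F (Nat.land T N) = 0 := by
  have : F &&& (T &&& N) = 0 := by
    apply Nat.eq_of_testBit_eq
    intro j
    rw [Nat.zero_testBit, Nat.testBit_and, Nat.testBit_and]
    by_contra hc
    have hc' : (F.testBit j && (T.testBit j && N.testBit j)) = true := by simpa using hc
    rw [Bool.and_eq_true, Bool.and_eq_true] at hc'
    obtain ⟨-, h1, h2⟩ := hc'
    obtain ⟨m1, m2, a, b, c, d, e, g⟩ := hT j h1
    obtain ⟨m, a', b', c', g'⟩ := hN j h2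
    have hm2 : m2 = 1 := by omega
    subst hm2
    rw [hf.one] at g
    have h3 : f m = f m1 := by omega
    have h4 := hf.inj m m1 a' b' a b h3
    exact e q hq hq0 (h4 ▸ c')
  exact this

/-- constant masks -/
theorem const_mask {X N : ℕ} (P : ℕ → Prop) (hX : X < 2 ^ N) (h : ∀ j < N, X.testBit j = true → P j) :
    ∀ j, X.testBit j = true → P j := by
  intro j hj
  by_cases hjN : j < N
  · exact h j hjN hj
  · exfalso
    rw [Nat.testBit_lt_two_pow (hX.trans_le (Nat.pow_le_pow_right (by norm_num) (by omega)))] at hj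
    exact Bool.noConfusion hj

theorem invD_of_mod (hf : Good f) {k X : ℕ} (hk : 1 ≤ k) (hk' : k ≤ 8)
    (h : ∀ j, X.testBit j = true → j % 211 < k) : InvD f 1 3 (2 ^ (k - 1)) 1 X := by
  intro j hj
  have h1 := h j hj
  refine ⟨2 ^ (j % 211), 1, Nat.one_le_two_pow, Nat.pow_le_pow_right (by norm_num) (by omega),
    le_refl _, le_refl _, (NS.prime Nat.prime_two (by norm_num)).pow _, ?_⟩
  rw [hf.one, hf.pow2 _ (by omega)]
  omega

theorem invD_of_half (hf : Good f) {k X : ℕ} (hk : 1 ≤ k) (hk' : k ≤ 8)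
    (h : ∀ j, X.testBit j = true → (2 * j) % 211 < k) : InvD f 2 3 (2 ^ (k - 1)) 1 X := by
  intro j hj
  have h1 := h j hj
  refine ⟨2 ^ ((2 * j) % 211), 1, Nat.one_le_two_pow, Nat.pow_le_pow_right (by norm_num) (by omega),
    le_refl _, le_refl _, (NS.prime Nat.prime_two (by norm_num)).pow _, ?_⟩
  rw [hf.one, hf.pow2 _ (by omega)]
  omega
theorem OO_inv (hf : Good f) : InvD f 1 3 1 1 OO :=
  invD_of_mod (k := 1) hf (by norm_num) (by norm_num) (const_mask (N := 1500) (fun j => j % 211 < 1)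
    (by decide +kernel) (by decide +kernel))

theorem O2_inv (hf : Good f) : InvD f 1 3 2 1 O2 :=
  invD_of_mod (k := 2) hf (by norm_num) (by norm_num) (const_mask (N := 1500) (fun j => j % 211 < 2)
    (by decide +kernel) (by decide +kernel))

theorem O3_inv (hf : Good f) : InvD f 1 3 4 1 O3 :=
  invD_of_mod (k := 3) hf (by norm_num) (by norm_num) (const_mask (N := 1500) (fun j => j % 211 < 3)
    (by decide +kernel) (by decide +kernel))

theorem O4_inv (hf : Good f) : InvD f 1 3 8 1 O4 :=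
  invD_of_mod (k := 4) hf (by norm_num) (by norm_num) (const_mask (N := 1500) (fun j => j % 211 < 4)
    (by decide +kernel) (by decide +kernel))

theorem O5_inv (hf : Good f) : InvD f 1 3 16 1 O5 :=
  invD_of_mod (k := 5) hf (by norm_num) (by norm_num) (const_mask (N := 1500) (fun j => j % 211 < 5)
    (by decide +kernel) (by decide +kernel))

theorem O6_inv (hf : Good f) : InvD f 1 3 32 1 O6 :=
  invD_of_mod (k := 6) hf (by norm_num) (by norm_num) (const_mask (N := 1500) (fun j => j % 211 < 6)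
    (by decide +kernel) (by decide +kernel))

theorem O7_inv (hf : Good f) : InvD f 1 3 64 1 O7 :=
  invD_of_mod (k := 7) hf (by norm_num) (by norm_num) (const_mask (N := 1500) (fun j => j % 211 < 7)
    (by decide +kernel) (by decide +kernel))

theorem T2_inv (hf : Good f) : InvD f 1 3 128 1 T2 :=
  invD_of_mod (k := 8) hf (by norm_num) (by norm_num) (const_mask (N := 1500) (fun j => j % 211 < 8)
    (by decide +kernel) (by decide +kernel))

theorem H1_inv (hf : Good f) : InvD f 2 3 1 1 H1 :=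
  invD_of_half (k := 1) hf (by norm_num) (by norm_num) (const_mask (N := 1500) (fun j => (2 * j) % 211 < 1)
    (by decide +kernel) (by decide +kernel))

theorem H2_inv (hf : Good f) : InvD f 2 3 2 1 H2 :=
  invD_of_half (k := 2) hf (by norm_num) (by norm_num) (const_mask (N := 1500) (fun j => (2 * j) % 211 < 2)
    (by decide +kernel) (by decide +kernel))

theorem H3_inv (hf : Good f) : InvD f 2 3 4 1 H3 :=
  invD_of_half (k := 3) hf (by norm_num) (by norm_num) (const_mask (N := 1500) (fun j => (2 * j) % 211 < 3)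
    (by decide +kernel) (by decide +kernel))

theorem H4_inv (hf : Good f) : InvD f 2 3 8 1 H4 :=
  invD_of_half (k := 4) hf (by norm_num) (by norm_num) (const_mask (N := 1500) (fun j => (2 * j) % 211 < 4)
    (by decide +kernel) (by decide +kernel))

theorem H5_inv (hf : Good f) : InvD f 2 3 16 1 H5 :=
  invD_of_half (k := 5) hf (by norm_num) (by norm_num) (const_mask (N := 1500) (fun j => (2 * j) % 211 < 5)
    (by decide +kernel) (by decide +kernel))

theorem H6_inv (hf : Good f) : InvD f 2 3 32 1 H6 :=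
  invD_of_half (k := 6) hf (by norm_num) (by norm_num) (const_mask (N := 1500) (fun j => (2 * j) % 211 < 6)
    (by decide +kernel) (by decide +kernel))

theorem H7_inv (hf : Good f) : InvD f 2 3 64 1 H7 :=
  invD_of_half (k := 7) hf (by norm_num) (by norm_num) (const_mask (N := 1500) (fun j => (2 * j) % 211 < 7)
    (by decide +kernel) (by decide +kernel))

theorem H8_inv (hf : Good f) : InvD f 2 3 128 1 H8 :=
  invD_of_half (k := 8) hf (by norm_num) (by norm_num) (const_mask (N := 1500) (fun j => (2 * j) % 211 < 8)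
    (by decide +kernel) (by decide +kernel))

theorem mod_raw (a b : ℕ) : Nat.mod a b = a % b := rfl

theorem ON_inv (hf : Good f) : InvD f 1 3 1 2 ON := by
  intro j hj
  have h := const_mask (X := ON) (N := 1500) (fun j => j % 211 = 0 ∨ j % 211 = 210)
    (by decide +kernel) (by decide +kernel) j hj
  rcases h with h | h
  · exact ⟨1, 1, le_refl _, le_refl _, le_refl _, by norm_num, NS.one, by rw [hf.one]; omega⟩
  · exact ⟨1, 2, le_refl _, le_refl _, by norm_num, by norm_num, NS.one, by rw [hf.one, hf.two]; omega⟩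

theorem OB_inv (hf : Good f) : InvD f 1 3 2 2 OB := by
  intro j hj
  have h := const_mask (X := OB) (N := 1500) (fun j => j % 211 = 0 ∨ j % 211 = 210 ∨ j % 211 = 1)
    (by decide +kernel) (by decide +kernel) j hj
  rcases h with h | h | h
  · exact ⟨1, 1, le_refl _, by norm_num, le_refl _, by norm_num, NS.one, by rw [hf.one]; omega⟩
  · exact ⟨1, 2, le_refl _, by norm_num, by norm_num, by norm_num, NS.one, by rw [hf.one, hf.two]; omega⟩
  · exact ⟨2, 1, by norm_num, le_refl _, le_refl _, by norm_num,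
      NS.prime Nat.prime_two (by norm_num), by rw [hf.one, hf.two]; omega⟩

theorem OO_inv2 (hf : Good f) : InvD f 2 3 1 1 OO := by
  have := const_mask (X := OO) (N := 1500) (fun j => j % 211 < 1)
    (by decide +kernel) (by decide +kernel)
  exact invD_of_half (k := 1) hf (by norm_num) (by norm_num) (fun j hj => by
    have := this j hj
    omega)

theorem S2_inv (hf : Good f) {q0 K1 K2 T : ℕ} (h : InvD f 1 q0 K1 K2 T) :
    InvD f 1 q0 K1 (2 * K2) (S2 T) :=
  (h.mono le_rfl le_rfl (by omega)).or (h.down hf 2 1 (by norm_num) (by rw [hf.two]))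

theorem S3_inv (hf : Good f) {q0 K1 K2 T : ℕ} (h : InvD f 1 q0 K1 K2 T) :
    InvD f 1 q0 K1 (4 * K2) (S3 T) :=
  ((S2_inv hf h).mono le_rfl le_rfl (by omega)).or (h.down hf 4 2 (by norm_num) (by
    have := hf.pow2 2 (by norm_num); norm_num at this; omega))

theorem S4_inv (hf : Good f) {q0 K1 K2 T : ℕ} (h : InvD f 1 q0 K1 K2 T) :
    InvD f 1 q0 K1 (8 * K2) (S4 T) :=
  ((S2_inv hf h).mono le_rfl le_rfl (by omega)).or
    (((S2_inv hf h).down hf 4 2 (by norm_num) (by
    have := hf.pow2 2 (by norm_num); norm_num at this; omega)).mono le_rfl le_rfl (by omega))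

theorem S5_inv (hf : Good f) {q0 K1 K2 T : ℕ} (h : InvD f 1 q0 K1 K2 T) :
    InvD f 1 q0 K1 (16 * K2) (S5 T) :=
  ((S3_inv hf h).mono le_rfl le_rfl (by omega)).or
    (((S3_inv hf h).down hf 4 2 (by norm_num) (by
    have := hf.pow2 2 (by norm_num); norm_num at this; omega)).mono le_rfl le_rfl (by omega))

theorem S6_inv (hf : Good f) {q0 K1 K2 T : ℕ} (h : InvD f 1 q0 K1 K2 T) :
    InvD f 1 q0 K1 (32 * K2) (S6 T) :=
  ((S4_inv hf h).mono le_rfl le_rfl (by omega)).or
    (((S4_inv hf h).down hf 4 2 (by norm_num) (by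
    have := hf.pow2 2 (by norm_num); norm_num at this; omega)).mono le_rfl le_rfl (by omega))

theorem forb5_inv (hf : Good f) {q0 K1 T : ℕ} (h : InvD f 1 q0 K1 1 T) :
    InvD f 1 q0 K1 36 (forb5 T (f 3)) := by
  have l3 := hf.lt 3; have l5 := hf.lt 5; have l7 := hf.lt 7; have l11 := hf.lt 11
  have v9 := hf.v (m := 3) (n := 3) (k := 9) (by norm_num) (by norm_num) (by norm_num)
  have v27 := hf.v (m := 9) (n := 3) (k := 27) (by norm_num) (by norm_num) (by norm_num)
  unfold forb5
  exact (((((S6_inv hf h).mono le_rfl le_rfl (by norm_num)).or (((S4_inv hf h).down hf 3 _ (by norm_num) (by simp only [Nat.one_mul, Nat.mul_eq, Nat.add_eq]; omega)).mono le_rfl le_rfl (by norm_num))).or (((S3_inv hf h).down hf 9 _ (by norm_num) (by simp only [Nat.one_mul, Nat.mul_eq, Nat.add_eq]; omega)).mono le_rfl le_rfl (by norm_num))).or ((h.down hf 27 _ (by norm_num) (by simp only [Nat.one_mul, Nat.mul_eq, Nat.add_eq]; omega)).mono le_rfl le_rfl (by norm_num)))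

theorem M5_inv (hf : Good f) :
    InvD f 1 5 36 1 (M5 (f 3)) := by
  have l3 := hf.lt 3; have l5 := hf.lt 5; have l7 := hf.lt 7; have l11 := hf.lt 11
  have v9 := hf.v (m := 3) (n := 3) (k := 9) (by norm_num) (by norm_num) (by norm_num)
  have v27 := hf.v (m := 9) (n := 3) (k := 27) (by norm_num) (by norm_num) (by norm_num)
  unfold M5
  exact ((((((O6_inv hf).mono (by norm_num) le_rfl le_rfl).mono le_rfl (by norm_num) le_rfl).or ((((O4_inv hf).mono (by norm_num) le_rfl le_rfl).up hf 3 _ (NS.prime (p := 3) (by norm_num) (by norm_num)) (by norm_num) (by simp only [hlf, Nat.one_mul, Nat.mul_eq, Nat.add_eq, Nat.sub_eq, mod_raw]; omega)).mono le_rfl (by norm_num) le_rfl)).or ((((O3_inv hf).mono (by norm_num) le_rfl le_rfl).up hf 9 _ ((NS.prime (p := 3) (by norm_num) (by norm_num)).mul (NS.prime (p := 3) (by norm_num) (by norm_num))) (by norm_num) (by simp only [hlf, Nat.one_mul, Nat.mul_eq, Nat.add_eq, Nat.sub_eq, mod_raw]; omega)).mono le_rfl (by norm_num) le_rfl)).or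 ((((OO_inv hf).mono (by norm_num) le_rfl le_rfl).up hf 27 _ (((NS.prime (p := 3) (by norm_num) (by norm_num)).mul (NS.prime (p := 3) (by norm_num) (by norm_num))).mul (NS.prime (p := 3) (by norm_num) (by norm_num))) (by norm_num) (by simp only [hlf, Nat.one_mul, Nat.mul_eq, Nat.add_eq, Nat.sub_eq, mod_raw]; omega)).mono le_rfl (by norm_num) le_rfl))

theorem M25_inv (hf : Good f) :
    InvD f 1 5 8 1 (M25 (f 3)) := by
  have l3 := hf.lt 3; have l5 := hf.lt 5; have l7 := hf.lt 7; have l11 := hf.lt 11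
  unfold M25
  exact ((((O4_inv hf).mono (by norm_num) le_rfl le_rfl).mono le_rfl (by norm_num) le_rfl).or ((((O2_inv hf).mono (by norm_num) le_rfl le_rfl).up hf 3 _ (NS.prime (p := 3) (by norm_num) (by norm_num)) (by norm_num) (by simp only [hlf, Nat.one_mul, Nat.mul_eq, Nat.add_eq, Nat.sub_eq, mod_raw]; omega)).mono le_rfl (by norm_num) le_rfl))

theorem M5h_inv (hf : Good f) :
    InvD f 2 5 36 1 (M5h (hlf (f 3))) := by
  have l3 := hf.lt 3; have l5 := hf.lt 5; have l7 := hf.lt 7; have l11 := hf.lt 11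
  have v9 := hf.v (m := 3) (n := 3) (k := 9) (by norm_num) (by norm_num) (by norm_num)
  have v27 := hf.v (m := 9) (n := 3) (k := 27) (by norm_num) (by norm_num) (by norm_num)
  unfold M5h
  exact ((((((H6_inv hf).mono (by norm_num) le_rfl le_rfl).mono le_rfl (by norm_num) le_rfl).or ((((H4_inv hf).mono (by norm_num) le_rfl le_rfl).up hf 3 _ (NS.prime (p := 3) (by norm_num) (by norm_num)) (by norm_num) (by simp only [hlf, Nat.one_mul, Nat.mul_eq, Nat.add_eq, Nat.sub_eq, mod_raw]; omega)).mono le_rfl (by norm_num) le_rfl)).or ((((H3_inv hf).mono (by norm_num) le_rfl le_rfl).up hf 9 _ ((NS.prime (p := 3) (by norm_num) (by norm_num)).mul (NS.prime (p := 3) (by norm_num) (by norm_num))) (by norm_num) (by simp only [hlf, Nat.one_mul, Nat.mul_eq, Nat.add_eq, Nat.sub_eq, mod_raw]; omega)).mono le_rfl (by norm_num) le_rfl)).or ((((H1_inv hf).mono (by norm_num) le_rfl le_rfl).up hf 27 _ (((NS.prime (p := 3) (by norm_num) (by norm_num)).mul (NS.prime (p := 3) (by norm_num) (by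 norm_num))).mul (NS.prime (p := 3) (by norm_num) (by norm_num))) (by norm_num) (by simp only [hlf, Nat.one_mul, Nat.mul_eq, Nat.add_eq, Nat.sub_eq, mod_raw]; omega)).mono le_rfl (by norm_num) le_rfl))

theorem M25h_inv (hf : Good f) :
    InvD f 2 5 8 1 (M25h (hlf (f 3))) := by
  have l3 := hf.lt 3; have l5 := hf.lt 5; have l7 := hf.lt 7; have l11 := hf.lt 11
  unfold M25h
  exact ((((H4_inv hf).mono (by norm_num) le_rfl le_rfl).mono le_rfl (by norm_num) le_rfl).or ((((H2_inv hf).mono (by norm_num) le_rfl le_rfl).up hf 3 _ (NS.prime (p := 3) (by norm_num) (by norm_num)) (by norm_num) (by simp only [hlf, Nat.one_mul, Nat.mul_eq, Nat.add_eq, Nat.sub_eq, mod_raw]; omega)).mono le_rfl (by norm_num) le_rfl))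

theorem forb7_inv (hf : Good f) {q0 K1 T : ℕ} (h : InvD f 1 q0 K1 1 T) :
    InvD f 1 q0 K1 30 (forb7 T (f 3) (f 5)) := by
  have l3 := hf.lt 3; have l5 := hf.lt 5; have l7 := hf.lt 7; have l11 := hf.lt 11
  have v9 := hf.v (m := 3) (n := 3) (k := 9) (by norm_num) (by norm_num) (by norm_num)
  have v15 := hf.v (m := 3) (n := 5) (k := 15) (by norm_num) (by norm_num) (by norm_num)
  have v25 := hf.v (m := 5) (n := 5) (k := 25) (by norm_num) (by norm_num) (by norm_num)
  have v27 := hf.v (m := 9) (n := 3) (k := 27) (by norm_num) (by norm_num) (by norm_num)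
  unfold forb7
  exact ((((((((S5_inv hf h).mono le_rfl le_rfl (by norm_num)).or (((S4_inv hf h).down hf 3 _ (by norm_num) (by simp only [Nat.one_mul, Nat.mul_eq, Nat.add_eq]; omega)).mono le_rfl le_rfl (by norm_num))).or (((S3_inv hf h).down hf 5 _ (by norm_num) (by simp only [Nat.one_mul, Nat.mul_eq, Nat.add_eq]; omega)).mono le_rfl le_rfl (by norm_num))).or (((S2_inv hf h).down hf 9 _ (by norm_num) (by simp only [Nat.one_mul, Nat.mul_eq, Nat.add_eq]; omega)).mono le_rfl le_rfl (by norm_num))).or (((S2_inv hf h).down hf 15 _ (by norm_num) (by simp only [Nat.one_mul, Nat.mul_eq, Nat.add_eq]; omega)).mono le_rfl le_rfl (by norm_num))).or ((h.down hf 25 _ (by norm_num) (by simp only [Nat.one_mul, Nat.mul_eq, Nat.add_eq]; omega)).mono le_rfl le_rfl (by norm_num))).or ((h.down hf 27 _ (by norm_num) (by simp only [Nat.one_mul, Nat.mul_eq, Nat.add_eq]; omega)).mono le_rfl le_rfl (by norm_num)))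

theorem M7_inv (hf : Good f) :
    InvD f 1 7 30 1 (M7 (f 3) (f 5)) := by
  have l3 := hf.lt 3; have l5 := hf.lt 5; have l7 := hf.lt 7; have l11 := hf.lt 11
  have v9 := hf.v (m := 3) (n := 3) (k := 9) (by norm_num) (by norm_num) (by norm_num)
  have v15 := hf.v (m := 3) (n := 5) (k := 15) (by norm_num) (by norm_num) (by norm_num)
  have v25 := hf.v (m := 5) (n := 5) (k := 25) (by norm_num) (by norm_num) (by norm_num)
  have v27 := hf.v (m := 9) (n := 3) (k := 27) (by norm_num) (by norm_num) (by norm_num)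
  unfold M7
  exact (((((((((O5_inv hf).mono (by norm_num) le_rfl le_rfl).mono le_rfl (by norm_num) le_rfl).or ((((O4_inv hf).mono (by norm_num) le_rfl le_rfl).up hf 3 _ (NS.prime (p := 3) (by norm_num) (by norm_num)) (by norm_num) (by simp only [hlf, Nat.one_mul, Nat.mul_eq, Nat.add_eq, Nat.sub_eq, mod_raw]; omega)).mono le_rfl (by norm_num) le_rfl)).or ((((O3_inv hf).mono (by norm_num) le_rfl le_rfl).up hf 5 _ (NS.prime (p := 5) (by norm_num) (by norm_num)) (by norm_num) (by simp only [hlf, Nat.one_mul, Nat.mul_eq, Nat.add_eq, Nat.sub_eq, mod_raw]; omega)).mono le_rfl (by norm_num) le_rfl)).or ((((O2_inv hf).mono (by norm_num) le_rfl le_rfl).up hf 9 _ ((NS.prime (p := 3) (by norm_num) (by norm_num)).mul (NS.prime (p := 3) (by norm_num) (by norm_num))) (by norm_num) (by simp only [hlf, Nat.one_mul, Nat.mul_eq, Nat.add_eq, Nat.sub_eq, mod_raw]; omega)).mono le_rfl (by norm_num) le_rfl)).or ((((O2_inv hf).mono (by norm_num) le_rfl le_rfl).up hf 15 _ ((NS.prime (p :=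 3) (by norm_num) (by norm_num)).mul (NS.prime (p := 5) (by norm_num) (by norm_num))) (by norm_num) (by simp only [hlf, Nat.one_mul, Nat.mul_eq, Nat.add_eq, Nat.sub_eq, mod_raw]; omega)).mono le_rfl (by norm_num) le_rfl)).or ((((OO_inv hf).mono (by norm_num) le_rfl le_rfl).up hf 25 _ ((NS.prime (p := 5) (by norm_num) (by norm_num)).mul (NS.prime (p := 5) (by norm_num) (by norm_num))) (by norm_num) (by simp only [hlf, Nat.one_mul, Nat.mul_eq, Nat.add_eq, Nat.sub_eq, mod_raw]; omega)).mono le_rfl (by norm_num) le_rfl)).or ((((OO_inv hf).mono (by norm_num) le_rfl le_rfl).up hf 27 _ (((NS.prime (p := 3) (by norm_num) (by norm_num)).mul (NS.prime (p := 3) (by norm_num) (by norm_num))).mul (NS.prime (p := 3) (by norm_num) (by norm_num))) (by norm_num) (by simp only [hlf, Nat.one_mul, Nat.mul_eq, Nat.add_eq, Nat.sub_eq, mod_raw]; omega)).mono le_rfl (by norm_num) le_rfl))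

theorem M49_inv (hf : Good f) :
    InvD f 1 5 4 1 (M49 (f 3)) := by
  have l3 := hf.lt 3; have l5 := hf.lt 5; have l7 := hf.lt 7; have l11 := hf.lt 11
  unfold M49
  exact ((((O3_inv hf).mono (by norm_num) le_rfl le_rfl).mono le_rfl (by norm_num) le_rfl).or ((((OO_inv hf).mono (by norm_num) le_rfl le_rfl).up hf 3 _ (NS.prime (p := 3) (by norm_num) (by norm_num)) (by norm_num) (by simp only [hlf, Nat.one_mul, Nat.mul_eq, Nat.add_eq, Nat.sub_eq, mod_raw]; omega)).mono le_rfl (by norm_num) le_rfl))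

theorem M7h_inv (hf : Good f) :
    InvD f 2 7 30 1 (M7h (hlf (f 3)) (hlf (f 5))) := by
  have l3 := hf.lt 3; have l5 := hf.lt 5; have l7 := hf.lt 7; have l11 := hf.lt 11
  have v9 := hf.v (m := 3) (n := 3) (k := 9) (by norm_num) (by norm_num) (by norm_num)
  have v15 := hf.v (m := 3) (n := 5) (k := 15) (by norm_num) (by norm_num) (by norm_num)
  have v25 := hf.v (m := 5) (n := 5) (k := 25) (by norm_num) (by norm_num) (by norm_num)
  have v27 := hf.v (m := 9) (n := 3) (k := 27) (by norm_num) (by norm_num) (by norm_num)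
  unfold M7h
  exact (((((((((H5_inv hf).mono (by norm_num) le_rfl le_rfl).mono le_rfl (by norm_num) le_rfl).or ((((H4_inv hf).mono (by norm_num) le_rfl le_rfl).up hf 3 _ (NS.prime (p := 3) (by norm_num) (by norm_num)) (by norm_num) (by simp only [hlf, Nat.one_mul, Nat.mul_eq, Nat.add_eq, Nat.sub_eq, mod_raw]; omega)).mono le_rfl (by norm_num) le_rfl)).or ((((H3_inv hf).mono (by norm_num) le_rfl le_rfl).up hf 5 _ (NS.prime (p := 5) (by norm_num) (by norm_num)) (by norm_num) (by simp only [hlf, Nat.one_mul, Nat.mul_eq, Nat.add_eq, Nat.sub_eq, mod_raw]; omega)).mono le_rfl (by norm_num) le_rfl)).or ((((H2_inv hf).mono (by norm_num) le_rfl le_rfl).up hf 9 _ ((NS.prime (p := 3) (by norm_num) (by norm_num)).mul (NS.prime (p := 3) (by norm_num) (by norm_num))) (by norm_num) (by simp only [hlf, Nat.one_mul, Nat.mul_eq, Nat.add_eq, Nat.sub_eq, mod_raw]; omega)).mono le_rfl (by norm_num) le_rfl)).or ((((H2_inv hf).mono (by norm_num) le_rfl le_rfl).up hf 15 _ ((NS.prime (p :=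 3) (by norm_num) (by norm_num)).mul (NS.prime (p := 5) (by norm_num) (by norm_num))) (by norm_num) (by simp only [hlf, Nat.one_mul, Nat.mul_eq, Nat.add_eq, Nat.sub_eq, mod_raw]; omega)).mono le_rfl (by norm_num) le_rfl)).or ((((H1_inv hf).mono (by norm_num) le_rfl le_rfl).up hf 25 _ ((NS.prime (p := 5) (by norm_num) (by norm_num)).mul (NS.prime (p := 5) (by norm_num) (by norm_num))) (by norm_num) (by simp only [hlf, Nat.one_mul, Nat.mul_eq, Nat.add_eq, Nat.sub_eq, mod_raw]; omega)).mono le_rfl (by norm_num) le_rfl)).or ((((H1_inv hf).mono (by norm_num) le_rfl le_rfl).up hf 27 _ (((NS.prime (p := 3) (by norm_num) (by norm_num)).mul (NS.prime (p := 3) (by norm_num) (by norm_num))).mul (NS.prime (p := 3) (by norm_num) (by norm_num))) (by norm_num) (by simp only [hlf, Nat.one_mul, Nat.mul_eq, Nat.add_eq, Nat.sub_eq, mod_raw]; omega)).mono le_rfl (by norm_num) le_rfl))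

theorem M49h_inv (hf : Good f) :
    InvD f 2 5 4 1 (M49h (hlf (f 3))) := by
  have l3 := hf.lt 3; have l5 := hf.lt 5; have l7 := hf.lt 7; have l11 := hf.lt 11
  unfold M49h
  exact ((((H3_inv hf).mono (by norm_num) le_rfl le_rfl).mono le_rfl (by norm_num) le_rfl).or ((((H1_inv hf).mono (by norm_num) le_rfl le_rfl).up hf 3 _ (NS.prime (p := 3) (by norm_num) (by norm_num)) (by norm_num) (by simp only [hlf, Nat.one_mul, Nat.mul_eq, Nat.add_eq, Nat.sub_eq, mod_raw]; omega)).mono le_rfl (by norm_num) le_rfl))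

theorem M11p_inv (hf : Good f) :
    InvD f 1 7 18 1 (M11p (f 3) (f 5)) := by
  have l3 := hf.lt 3; have l5 := hf.lt 5; have l7 := hf.lt 7; have l11 := hf.lt 11
  have v9 := hf.v (m := 3) (n := 3) (k := 9) (by norm_num) (by norm_num) (by norm_num)
  have v15 := hf.v (m := 3) (n := 5) (k := 15) (by norm_num) (by norm_num) (by norm_num)
  unfold M11p
  exact (((((((O5_inv hf).mono (by norm_num) le_rfl le_rfl).mono le_rfl (by norm_num) le_rfl).or ((((O3_inv hf).mono (by norm_num) le_rfl le_rfl).up hf 3 _ (NS.prime (p := 3) (by norm_num) (by norm_num)) (by norm_num) (by simp only [hlf, Nat.one_mul, Nat.mul_eq, Nat.add_eq, Nat.sub_eq, mod_raw]; omega)).mono le_rfl (by norm_num) le_rfl)).or ((((O2_inv hf).mono (by norm_num) le_rfl le_rfl).up hf 5 _ (NS.prime (p := 5) (by norm_num) (by norm_num)) (by norm_num) (by simp only [hlf, Nat.one_mul, Nat.mul_eq, Nat.add_eq, Nat.sub_eq, mod_raw]; omega)).mono le_rfl (by norm_num) le_rfl)).or ((((O2_inv hf).mono (by norm_num) le_rfl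 le_rfl).up hf 9 _ ((NS.prime (p := 3) (by norm_num) (by norm_num)).mul (NS.prime (p := 3) (by norm_num) (by norm_num))) (by norm_num) (by simp only [hlf, Nat.one_mul, Nat.mul_eq, Nat.add_eq, Nat.sub_eq, mod_raw]; omega)).mono le_rfl (by norm_num) le_rfl)).or ((((OO_inv hf).mono (by norm_num) le_rfl le_rfl).up hf 15 _ ((NS.prime (p := 3) (by norm_num) (by norm_num)).mul (NS.prime (p := 5) (by norm_num) (by norm_num))) (by norm_num) (by simp only [hlf, Nat.one_mul, Nat.mul_eq, Nat.add_eq, Nat.sub_eq, mod_raw]; omega)).mono le_rfl (by norm_num) le_rfl))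

theorem M13p_inv (hf : Good f) :
    InvD f 1 7 16 1 (M13p (f 3) (f 5)) := by
  have l3 := hf.lt 3; have l5 := hf.lt 5; have l7 := hf.lt 7; have l11 := hf.lt 11
  have v9 := hf.v (m := 3) (n := 3) (k := 9) (by norm_num) (by norm_num) (by norm_num)
  have v15 := hf.v (m := 3) (n := 5) (k := 15) (by norm_num) (by norm_num) (by norm_num)
  unfold M13p
  exact (((((((O5_inv hf).mono (by norm_num) le_rfl le_rfl).mono le_rfl (by norm_num) le_rfl).or ((((O3_inv hf).mono (by norm_num) le_rfl le_rfl).up hf 3 _ (NS.prime (p := 3) (by norm_num) (by norm_num)) (by norm_num) (by simp only [hlf, Nat.one_mul, Nat.mul_eq, Nat.add_eq, Nat.sub_eq, mod_raw]; omega)).mono le_rfl (by norm_num) le_rfl)).or ((((O2_inv hf).mono (by norm_num) le_rfl le_rfl).up hf 5 _ (NS.prime (p := 5) (by norm_num) (by norm_num)) (by norm_num) (by simp only [hlf, Nat.one_mul, Nat.mul_eq, Nat.add_eq, Nat.sub_eq, mod_raw]; omega)).mono le_rfl (by norm_num) le_rfl)).or ((((OO_inv hf).mono (by norm_num) le_rfl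 le_rfl).up hf 9 _ ((NS.prime (p := 3) (by norm_num) (by norm_num)).mul (NS.prime (p := 3) (by norm_num) (by norm_num))) (by norm_num) (by simp only [hlf, Nat.one_mul, Nat.mul_eq, Nat.add_eq, Nat.sub_eq, mod_raw]; omega)).mono le_rfl (by norm_num) le_rfl)).or ((((OO_inv hf).mono (by norm_num) le_rfl le_rfl).up hf 15 _ ((NS.prime (p := 3) (by norm_num) (by norm_num)).mul (NS.prime (p := 5) (by norm_num) (by norm_num))) (by norm_num) (by simp only [hlf, Nat.one_mul, Nat.mul_eq, Nat.add_eq, Nat.sub_eq, mod_raw]; omega)).mono le_rfl (by norm_num) le_rfl))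

theorem R13_inv (hf : Good f) {q0 K1 T : ℕ} (h : InvD f 1 q0 K1 1 T) :
    InvD f 1 q0 K1 16 (R13 T (f 3) (f 5)) := by
  have l3 := hf.lt 3; have l5 := hf.lt 5; have l7 := hf.lt 7; have l11 := hf.lt 11
  have v9 := hf.v (m := 3) (n := 3) (k := 9) (by norm_num) (by norm_num) (by norm_num)
  have v15 := hf.v (m := 3) (n := 5) (k := 15) (by norm_num) (by norm_num) (by norm_num)
  unfold R13
  exact ((((((S5_inv hf h).mono le_rfl le_rfl (by norm_num)).or (((S3_inv hf h).down hf 3 _ (by norm_num) (by simp only [Nat.one_mul, Nat.mul_eq, Nat.add_eq]; omega)).mono le_rfl le_rfl (by norm_num))).or (((S2_inv hf h).down hf 5 _ (by norm_num) (by simp only [Nat.one_mul, Nat.mul_eq, Nat.add_eq]; omega)).mono le_rfl le_rfl (by norm_num))).or ((h.down hf 9 _ (by norm_num) (by simp only [Nat.one_mul, Nat.mul_eq, Nat.add_eq]; omega)).mono le_rfl le_rfl (by norm_num))).or ((h.down hf 15 _ (by norm_num) (by simp only [Nat.one_mul, Nat.mul_eq, Nat.add_eq]; omega)).mono le_rfl le_rfl (by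 norm_num)))

theorem forb17_inv (hf : Good f) {q0 K1 T : ℕ} (h : InvD f 1 q0 K1 1 T) :
    InvD f 1 q0 K1 12 (forb17 T (f 3) (f 5) (f 7) (f 11)) := by
  have l3 := hf.lt 3; have l5 := hf.lt 5; have l7 := hf.lt 7; have l11 := hf.lt 11
  have v9 := hf.v (m := 3) (n := 3) (k := 9) (by norm_num) (by norm_num) (by norm_num)
  unfold forb17
  exact (((((((S4_inv hf h).mono le_rfl le_rfl (by norm_num)).or (((S3_inv hf h).down hf 3 _ (by norm_num) (by simp only [Nat.one_mul, Nat.mul_eq, Nat.add_eq]; omega)).mono le_rfl le_rfl (by norm_num))).or (((S2_inv hf h).down hf 5 _ (by norm_num) (by simp only [Nat.one_mul, Nat.mul_eq, Nat.add_eq]; omega)).mono le_rfl le_rfl (by norm_num))).or ((h.down hf 7 _ (by norm_num) (by simp only [Nat.one_mul, Nat.mul_eq, Nat.add_eq]; omega)).mono le_rfl le_rfl (by norm_num))).or ((h.down hf 9 _ (by norm_num) (by simp only [Nat.one_mul, Nat.mul_eq, Nat.add_eq]; omega)).mono le_rfl le_rfl (by norm_num))).or ((h.down hf 11 _ (by norm_num) (by simp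 only [Nat.one_mul, Nat.mul_eq, Nat.add_eq]; omega)).mono le_rfl le_rfl (by norm_num)))

theorem M17_inv (hf : Good f) :
    InvD f 1 13 12 1 (M17 (f 3) (f 5) (f 7) (f 11)) := by
  have l3 := hf.lt 3; have l5 := hf.lt 5; have l7 := hf.lt 7; have l11 := hf.lt 11
  have v9 := hf.v (m := 3) (n := 3) (k := 9) (by norm_num) (by norm_num) (by norm_num)
  unfold M17
  exact ((((((((O4_inv hf).mono (by norm_num) le_rfl le_rfl).mono le_rfl (by norm_num) le_rfl).or ((((O3_inv hf).mono (by norm_num) le_rfl le_rfl).up hf 3 _ (NS.prime (p := 3) (by norm_num) (by norm_num)) (by norm_num) (by simp only [hlf, Nat.one_mul, Nat.mul_eq, Nat.add_eq, Nat.sub_eq, mod_raw]; omega)).mono le_rfl (by norm_num) le_rfl)).or ((((O2_inv hf).mono (by norm_num) le_rfl le_rfl).up hf 5 _ (NS.prime (p := 5) (by norm_num) (by norm_num)) (by norm_num) (by simp only [hlf, Nat.one_mul, Nat.mul_eq, Nat.add_eq, Nat.sub_eq, mod_raw]; omega)).mono le_rfl (by norm_num) le_rfl)).or ((((OO_inv hf).mono (by norm_num)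 le_rfl le_rfl).up hf 7 _ (NS.prime (p := 7) (by norm_num) (by norm_num)) (by norm_num) (by simp only [hlf, Nat.one_mul, Nat.mul_eq, Nat.add_eq, Nat.sub_eq, mod_raw]; omega)).mono le_rfl (by norm_num) le_rfl)).or ((((OO_inv hf).mono (by norm_num) le_rfl le_rfl).up hf 9 _ ((NS.prime (p := 3) (by norm_num) (by norm_num)).mul (NS.prime (p := 3) (by norm_num) (by norm_num))) (by norm_num) (by simp only [hlf, Nat.one_mul, Nat.mul_eq, Nat.add_eq, Nat.sub_eq, mod_raw]; omega)).mono le_rfl (by norm_num) le_rfl)).or ((((OO_inv hf).mono (by norm_num) le_rfl le_rfl).up hf 11 _ (NS.prime (p := 11) (by norm_num) (by norm_num)) (by norm_num) (by simp only [hlf, Nat.one_mul, Nat.mul_eq, Nat.add_eq, Nat.sub_eq, mod_raw]; omega)).mono le_rfl (by norm_num) le_rfl))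

theorem forb19_inv (hf : Good f) {q0 K1 T : ℕ} (h : InvD f 1 q0 K1 1 T) :
    InvD f 1 q0 K1 11 (forb19 T (f 3) (f 5) (f 7) (f 11)) := by
  have l3 := hf.lt 3; have l5 := hf.lt 5; have l7 := hf.lt 7; have l11 := hf.lt 11
  have v9 := hf.v (m := 3) (n := 3) (k := 9) (by norm_num) (by norm_num) (by norm_num)
  unfold forb19
  exact (((((((S4_inv hf h).mono le_rfl le_rfl (by norm_num)).or (((S2_inv hf h).down hf 3 _ (by norm_num) (by simp only [Nat.one_mul, Nat.mul_eq, Nat.add_eq]; omega)).mono le_rfl le_rfl (by norm_num))).or (((S2_inv hf h).down hf 5 _ (by norm_num) (by simp only [Nat.one_mul, Nat.mul_eq, Nat.add_eq]; omega)).mono le_rfl le_rfl (by norm_num))).or ((h.down hf 7 _ (by norm_num) (by simp only [Nat.one_mul, Nat.mul_eq, Nat.add_eq]; omega)).mono le_rfl le_rfl (by norm_num))).or ((h.down hf 9 _ (by norm_num) (by simp only [Nat.one_mul, Nat.mul_eq, Nat.add_eq]; omega)).mono le_rfl le_rfl (by norm_num))).or ((h.down hf 11 _ (by norm_num) (by simp only [Nat.one_mul,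 Nat.mul_eq, Nat.add_eq]; omega)).mono le_rfl le_rfl (by norm_num)))

theorem M19_inv (hf : Good f) :
    InvD f 1 13 11 1 (M19 (f 3) (f 5) (f 7) (f 11)) := by
  have l3 := hf.lt 3; have l5 := hf.lt 5; have l7 := hf.lt 7; have l11 := hf.lt 11
  have v9 := hf.v (m := 3) (n := 3) (k := 9) (by norm_num) (by norm_num) (by norm_num)
  unfold M19
  exact ((((((((O4_inv hf).mono (by norm_num) le_rfl le_rfl).mono le_rfl (by norm_num) le_rfl).or ((((O2_inv hf).mono (by norm_num) le_rfl le_rfl).up hf 3 _ (NS.prime (p := 3) (by norm_num) (by norm_num)) (by norm_num) (by simp only [hlf, Nat.one_mul, Nat.mul_eq, Nat.add_eq, Nat.sub_eq, mod_raw]; omega)).mono le_rfl (by norm_num) le_rfl)).or ((((O2_inv hf).mono (by norm_num) le_rfl le_rfl).up hf 5 _ (NS.prime (p := 5) (by norm_num) (by norm_num)) (by norm_num) (by simp only [hlf, Nat.one_mul, Nat.mul_eq, Nat.add_eq, Nat.sub_eq, mod_raw]; omega)).mono le_rfl (by norm_num) le_rfl)).or ((((OO_inv hf).mono (by norm_num) le_rfl le_rfl).up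 hf 7 _ (NS.prime (p := 7) (by norm_num) (by norm_num)) (by norm_num) (by simp only [hlf, Nat.one_mul, Nat.mul_eq, Nat.add_eq, Nat.sub_eq, mod_raw]; omega)).mono le_rfl (by norm_num) le_rfl)).or ((((OO_inv hf).mono (by norm_num) le_rfl le_rfl).up hf 9 _ ((NS.prime (p := 3) (by norm_num) (by norm_num)).mul (NS.prime (p := 3) (by norm_num) (by norm_num))) (by norm_num) (by simp only [hlf, Nat.one_mul, Nat.mul_eq, Nat.add_eq, Nat.sub_eq, mod_raw]; omega)).mono le_rfl (by norm_num) le_rfl)).or ((((OO_inv hf).mono (by norm_num) le_rfl le_rfl).up hf 11 _ (NS.prime (p := 11) (by norm_num) (by norm_num)) (by norm_num) (by simp only [hlf, Nat.one_mul, Nat.mul_eq, Nat.add_eq, Nat.sub_eq, mod_raw]; omega)).mono le_rfl (by norm_num) le_rfl))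

theorem forb23_inv (hf : Good f) {q0 K1 T : ℕ} (h : InvD f 1 q0 K1 1 T) :
    InvD f 1 q0 K1 9 (forb23 T (f 3) (f 5) (f 7)) := by
  have l3 := hf.lt 3; have l5 := hf.lt 5; have l7 := hf.lt 7; have l11 := hf.lt 11
  have v9 := hf.v (m := 3) (n := 3) (k := 9) (by norm_num) (by norm_num) (by norm_num)
  unfold forb23
  exact ((((((S4_inv hf h).mono le_rfl le_rfl (by norm_num)).or (((S2_inv hf h).down hf 3 _ (by norm_num) (by simp only [Nat.one_mul, Nat.mul_eq, Nat.add_eq]; omega)).mono le_rfl le_rfl (by norm_num))).or ((h.down hf 5 _ (by norm_num) (by simp only [Nat.one_mul, Nat.mul_eq, Nat.add_eq]; omega)).mono le_rfl le_rfl (by norm_num))).or ((h.down hf 7 _ (by norm_num) (by simp only [Nat.one_mul, Nat.mul_eq, Nat.add_eq]; omega)).mono le_rfl le_rfl (by norm_num))).or ((h.down hf 9 _ (by norm_num) (by simp only [Nat.one_mul, Nat.mul_eq, Nat.add_eq]; omega)).mono le_rfl le_rfl (by norm_num)))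

theorem M23_inv (hf : Good f) :
    InvD f 1 11 9 1 (M23 (f 3) (f 5) (f 7)) := by
  have l3 := hf.lt 3; have l5 := hf.lt 5; have l7 := hf.lt 7; have l11 := hf.lt 11
  have v9 := hf.v (m := 3) (n := 3) (k := 9) (by norm_num) (by norm_num) (by norm_num)
  unfold M23
  exact (((((((O4_inv hf).mono (by norm_num) le_rfl le_rfl).mono le_rfl (by norm_num) le_rfl).or ((((O2_inv hf).mono (by norm_num) le_rfl le_rfl).up hf 3 _ (NS.prime (p := 3) (by norm_num) (by norm_num)) (by norm_num) (by simp only [hlf, Nat.one_mul, Nat.mul_eq, Nat.add_eq, Nat.sub_eq, mod_raw]; omega)).mono le_rfl (by norm_num) le_rfl)).or ((((OO_inv hf).mono (by norm_num) le_rfl le_rfl).up hf 5 _ (NS.prime (p := 5) (by norm_num) (by norm_num)) (by norm_num) (by simp only [hlf, Nat.one_mul, Nat.mul_eq, Nat.add_eq, Nat.sub_eq, mod_raw]; omega)).mono le_rfl (by norm_num) le_rfl)).or ((((OO_inv hf).mono (by norm_num) le_rfl le_rfl).up hf 7 _ (NS.prime (p := 7) (by norm_num) (by norm_num)) (by norm_num) (by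 simp only [hlf, Nat.one_mul, Nat.mul_eq, Nat.add_eq, Nat.sub_eq, mod_raw]; omega)).mono le_rfl (by norm_num) le_rfl)).or ((((OO_inv hf).mono (by norm_num) le_rfl le_rfl).up hf 9 _ ((NS.prime (p := 3) (by norm_num) (by norm_num)).mul (NS.prime (p := 3) (by norm_num) (by norm_num))) (by norm_num) (by simp only [hlf, Nat.one_mul, Nat.mul_eq, Nat.add_eq, Nat.sub_eq, mod_raw]; omega)).mono le_rfl (by norm_num) le_rfl))

theorem forb29_inv (hf : Good f) {q0 K1 T : ℕ} (h : InvD f 1 q0 K1 1 T) :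
    InvD f 1 q0 K1 7 (forb29 T (f 3) (f 5) (f 7)) := by
  have l3 := hf.lt 3; have l5 := hf.lt 5; have l7 := hf.lt 7; have l11 := hf.lt 11
  unfold forb29
  exact (((((S3_inv hf h).mono le_rfl le_rfl (by norm_num)).or (((S2_inv hf h).down hf 3 _ (by norm_num) (by simp only [Nat.one_mul, Nat.mul_eq, Nat.add_eq]; omega)).mono le_rfl le_rfl (by norm_num))).or ((h.down hf 5 _ (by norm_num) (by simp only [Nat.one_mul, Nat.mul_eq, Nat.add_eq]; omega)).mono le_rfl le_rfl (by norm_num))).or ((h.down hf 7 _ (by norm_num) (by simp only [Nat.one_mul, Nat.mul_eq, Nat.add_eq]; omega)).mono le_rfl le_rfl (by norm_num)))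

theorem M29_inv (hf : Good f) :
    InvD f 1 11 7 1 (M29 (f 3) (f 5) (f 7)) := by
  have l3 := hf.lt 3; have l5 := hf.lt 5; have l7 := hf.lt 7; have l11 := hf.lt 11
  unfold M29
  exact ((((((O3_inv hf).mono (by norm_num) le_rfl le_rfl).mono le_rfl (by norm_num) le_rfl).or ((((O2_inv hf).mono (by norm_num) le_rfl le_rfl).up hf 3 _ (NS.prime (p := 3) (by norm_num) (by norm_num)) (by norm_num) (by simp only [hlf, Nat.one_mul, Nat.mul_eq, Nat.add_eq, Nat.sub_eq, mod_raw]; omega)).mono le_rfl (by norm_num) le_rfl)).or ((((OO_inv hf).mono (by norm_num) le_rfl le_rfl).up hf 5 _ (NS.prime (p := 5) (by norm_num) (by norm_num)) (by norm_num) (by simp only [hlf, Nat.one_mul, Nat.mul_eq, Nat.add_eq, Nat.sub_eq, mod_raw]; omega)).mono le_rfl (by norm_num) le_rfl)).or ((((OO_inv hf).mono (by norm_num) le_rfl le_rfl).up hf 7 _ (NS.prime (p := 7) (by norm_num) (by norm_num)) (by norm_num) (by simp only [hlf, Nat.one_mul, Nat.mul_eq, Nat.add_eq, Nat.sub_eq, mod_raw]; omega)).mono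 le_rfl (by norm_num) le_rfl))

theorem forb31_inv (hf : Good f) {q0 K1 T : ℕ} (h : InvD f 1 q0 K1 1 T) :
    InvD f 1 q0 K1 6 (forb31 T (f 3) (f 5)) := by
  have l3 := hf.lt 3; have l5 := hf.lt 5; have l7 := hf.lt 7; have l11 := hf.lt 11
  unfold forb31
  exact ((((S3_inv hf h).mono le_rfl le_rfl (by norm_num)).or (((S2_inv hf h).down hf 3 _ (by norm_num) (by simp only [Nat.one_mul, Nat.mul_eq, Nat.add_eq]; omega)).mono le_rfl le_rfl (by norm_num))).or ((h.down hf 5 _ (by norm_num) (by simp only [Nat.one_mul, Nat.mul_eq, Nat.add_eq]; omega)).mono le_rfl le_rfl (by norm_num)))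

theorem M31_inv (hf : Good f) :
    InvD f 1 7 6 1 (M31 (f 3) (f 5)) := by
  have l3 := hf.lt 3; have l5 := hf.lt 5; have l7 := hf.lt 7; have l11 := hf.lt 11
  unfold M31
  exact (((((O3_inv hf).mono (by norm_num) le_rfl le_rfl).mono le_rfl (by norm_num) le_rfl).or ((((O2_inv hf).mono (by norm_num) le_rfl le_rfl).up hf 3 _ (NS.prime (p := 3) (by norm_num) (by norm_num)) (by norm_num) (by simp only [hlf, Nat.one_mul, Nat.mul_eq, Nat.add_eq, Nat.sub_eq, mod_raw]; omega)).mono le_rfl (by norm_num) le_rfl)).or ((((OO_inv hf).mono (by norm_num) le_rfl le_rfl).up hf 5 _ (NS.prime (p := 5) (by norm_num) (by norm_num)) (by norm_num) (by simp only [hlf, Nat.one_mul, Nat.mul_eq, Nat.add_eq, Nat.sub_eq, mod_raw]; omega)).mono le_rfl (by norm_num) le_rfl))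

theorem forb37_inv (hf : Good f) {q0 K1 T : ℕ} (h : InvD f 1 q0 K1 1 T) :
    InvD f 1 q0 K1 5 (forb37 T (f 3) (f 5)) := by
  have l3 := hf.lt 3; have l5 := hf.lt 5; have l7 := hf.lt 7; have l11 := hf.lt 11
  unfold forb37
  exact ((((S3_inv hf h).mono le_rfl le_rfl (by norm_num)).or ((h.down hf 3 _ (by norm_num) (by simp only [Nat.one_mul, Nat.mul_eq, Nat.add_eq]; omega)).mono le_rfl le_rfl (by norm_num))).or ((h.down hf 5 _ (by norm_num) (by simp only [Nat.one_mul, Nat.mul_eq, Nat.add_eq]; omega)).mono le_rfl le_rfl (by norm_num)))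

theorem M37_inv (hf : Good f) :
    InvD f 1 7 5 1 (M37 (f 3) (f 5)) := by
  have l3 := hf.lt 3; have l5 := hf.lt 5; have l7 := hf.lt 7; have l11 := hf.lt 11
  unfold M37
  exact (((((O3_inv hf).mono (by norm_num) le_rfl le_rfl).mono le_rfl (by norm_num) le_rfl).or ((((OO_inv hf).mono (by norm_num) le_rfl le_rfl).up hf 3 _ (NS.prime (p := 3) (by norm_num) (by norm_num)) (by norm_num) (by simp only [hlf, Nat.one_mul, Nat.mul_eq, Nat.add_eq, Nat.sub_eq, mod_raw]; omega)).mono le_rfl (by norm_num) le_rfl)).or ((((OO_inv hf).mono (by norm_num) le_rfl le_rfl).up hf 5 _ (NS.prime (p := 5) (by norm_num) (by norm_num)) (by norm_num) (by simp only [hlf, Nat.one_mul, Nat.mul_eq, Nat.add_eq, Nat.sub_eq, mod_raw]; omega)).mono le_rfl (by norm_num) le_rfl))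


theorem FL_eq : FL = 2 ^ 211 - 1 := by decide +kernel

theorem cmp_lt (F : ℕ) : cmp F < 2 ^ 211 := by
  have h1 : FL &&& F < 2 ^ 211 := lt_of_le_of_lt Nat.and_le_left (by rw [FL_eq]; norm_num)
  have h2 : FL < 2 ^ 211 := by rw [FL_eq]; norm_num
  exact Nat.xor_lt_two_pow h2 h1

theorem cmp_bit {F k : ℕ} (hk : k < 211) (h : F.testBit k = false) : (cmp F).testBit k = true := by
  have : (FL ^^^ (FL &&& F)).testBit k = true := by
    rw [Nat.testBit_xor, Nat.testBit_and, h, FL_eq, Nat.testBit_two_pow_sub_one]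
    simp [hk]
  exact this

theorem lowc_spec {W : ℕ} (h0 : W ≠ 0) (hW : W < 2 ^ 211) :
    ∃ j, j < 211 ∧ lowc W = j + 1 ∧ ∀ k, k ≠ j → W.testBit k = true →
      (Nat.sub W (Nat.shiftLeft 1 j)).testBit k = true := by
  obtain ⟨j, m, hm, hWm⟩ := Nat.exists_eq_two_pow_mul_odd h0
  have hj : j < 211 := by
    by_contra hc
    have : 2 ^ 211 ≤ 2 ^ j := Nat.pow_le_pow_right (by norm_num) (by omega)
    have h2 : 2 ^ j * 1 ≤ 2 ^ j * m := Nat.mul_le_mul_left _ hm.pos
    omega
  refine ⟨j, hj, ?_, ?_⟩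
  · have hg : Nat.gcd W (2 ^ 211) = 2 ^ j := by
      rw [hWm, show (2 : ℕ) ^ 211 = 2 ^ j * 2 ^ (211 - j) by rw [← pow_add]; congr 1; omega,
        Nat.gcd_mul_left]
      have : Nat.gcd m (2 ^ (211 - j)) = 1 := by
        apply Nat.Coprime.pow_right
        exact (Nat.coprime_two_right).mpr hm
      rw [this, mul_one]
    have h1 : ∀ j < 211, Nat.land (Nat.shiftRight 2093409947167464019996305951190389052411818794987719087246265020453586829711620419751820986658231156872204370539191714664571605779549254637956581394616718833079826344668087245776066580242349740830706117587429322410026351960487897199069745203436151368033677644393042252844441857785153674775136591837357882714803646147075513351137106123008819552327398036446324979878050222076809197441824786272310847819663235436413872591064551700851528862414694687648594351263633281635295519266140054791499921745414885078160578739033602488042029252208154408992768256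
      (Nat.mul 8 (Nat.mod (2 ^ j) 227))) 255 = j + 1 := by decide +kernel
    have h2 : lowc W = Nat.land (Nat.shiftRight 2093409947167464019996305951190389052411818794987719087246265020453586829711620419751820986658231156872204370539191714664571605779549254637956581394616718833079826344668087245776066580242349740830706117587429322410026351960487897199069745203436151368033677644393042252844441857785153674775136591837357882714803646147075513351137106123008819552327398036446324979878050222076809197441824786272310847819663235436413872591064551700851528862414694687648594351263633281635295519266140054791499921745414885078160578739033602488042029252208154408992768256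
      (Nat.mul 8 (Nat.mod (Nat.gcd W (2 ^ 211)) 227))) 255 := rfl
    rw [h2, hg]
    exact h1 j hj
  · intro k hk hb
    obtain ⟨n, hn⟩ := hm
    have hW2 : W = 2 ^ (j + 1) * n + 2 ^ j := by rw [hWm, hn]; ring
    have hs : Nat.sub W (Nat.shiftLeft 1 j) = 2 ^ (j + 1) * n := by
      have : Nat.shiftLeft 1 j = 2 ^ j := by
        have := Nat.one_shiftLeft j
        exact this
      rw [this]
      have h3 : Nat.sub W (2 ^ j) = W - 2 ^ j := rfl
      rw [h3, hW2]
      omega
    rw [hs]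
    rw [hW2] at hb
    rw [Nat.testBit_two_pow_mul_add _ (Nat.pow_lt_pow_right (by norm_num) (by omega))] at hb
    rw [Nat.testBit_two_pow_mul]
    by_cases hkj : k < j + 1
    · rw [if_pos hkj, Nat.testBit_two_pow] at hb
      simp at hb
      omega
    · rw [if_neg hkj] at hb
      simp [hb]
      omega

theorem allB_spec {P : ℕ → Bool} : ∀ (fuel W : ℕ), allB P fuel W = true → W < 2 ^ 211 →
    ∀ k, W.testBit k = true → P k = true := by
  intro fuel
  induction fuel with
  | zero =>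
    intro W h hW k hk
    have h1 : Nat.beq W 0 = true := h
    have h2 : W = 0 := Nat.eq_of_beq_eq_true h1
    rw [h2, Nat.zero_testBit] at hk
    exact Bool.noConfusion hk
  | succ n ih =>
    intro W h hW k hk
    have h0 : W ≠ 0 := by
      rintro rfl
      rw [Nat.zero_testBit] at hk
      exact Bool.noConfusion hk
    obtain ⟨j, hj, hl, hb⟩ := lowc_spec h0 hW
    have h1 : (Nat.rec (motive := fun _ => Bool) true
      (fun m _ => Bool.rec (motive := fun _ => Bool) false
        (allB P n (Nat.sub W (Nat.shiftLeft 1 m))) (P m)) (lowc W) : Bool) = true := h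
    rw [hl] at h1
    have h2 : (Bool.rec (motive := fun _ => Bool) false
        (allB P n (Nat.sub W (Nat.shiftLeft 1 j))) (P j) : Bool) = true := h1
    have hPj : P j = true := by
      rcases hP : P j with _ | _
      · rw [hP] at h2
        exact Bool.noConfusion h2
      · rfl
    rw [hPj] at h2
    by_cases hkj : k = j
    · rw [hkj]; exact hPj
    · refine ih _ h2 ?_ k (hb k hkj hk)
      have : Nat.sub W (Nat.shiftLeft 1 j) ≤ W := Nat.sub_le _ _
      omega

theorem ifz_spec {x : ℕ} {t : Bool} (h : ifz x t = true) (hx : x = 0) : t = true := by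
  subst hx
  exact h

theorem step {P : ℕ → Bool} {F : ℕ} (h : allB P 211 (cmp F) = true) {k : ℕ}
    (hk : k < 211) (hF : F.testBit k = false) : P k = true :=
  allB_spec 211 _ h (cmp_lt F) k (cmp_bit hk hF)

end
end Pool.Agent.Lib.MP_0f64a9_nt
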