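import Mathlib
import Pool.Agent.Lib.MP_0f64a9_nt.Sound1

set_option autoImplicit false
set_option linter.all false
namespace Pool.Agent.Lib.MP_0f64a9_nt
variable {f : ℕ → ℕ}

theorem frc_eq (x : ℕ) (k : ℕ → Bool) : frc x k = k x := rfl

theorem lor_bit {X Y k : ℕ} (h1 : X.testBit k = false) (h2 : Y.testBit k = false) :
    (Nat.lor X Y).testBit k = false := by
  have : (X ||| Y).testBit k = false := by rw [Nat.testBit_or, h1, h2]; rfl
  exact this

theorem NL_inv (hf : Good f) {q0 K m : ℕ} (h : InvD f 1 q0 K 1 m) (q : ℕ) (hq : NS q0 q)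
    (hq0 : 0 < q) : InvD f 1 q0 (q * K) 1 (NL (f q) m) :=
  h.up hf q _ hq hq0 (by
    have := hf.lt q
    simp only [Nat.one_mul, Nat.sub_eq]; omega)

theorem N11_inv (hf : Good f) {q0 K m : ℕ} (h : InvD f 1 q0 K 1 m) (q : ℕ) (hq : NS q0 q)
    (hq0 : 0 < q) (h1 : q * K ≤ 211) (h2 : q * q ≤ 211) (h3 : 3 ≤ q0) :
    InvD f 1 q0 211 1 (N11 (f q) m) := by
  have l := hf.lt q
  have v := hf.mul q q hq0 hq0
  refine ((h.up hf q _ hq hq0 ?_).mono le_rfl h1 le_rfl).or
    ((((OO_inv hf).mono h3 le_rfl le_rfl).up hf (q * q) _ (hq.mul hq) (Nat.mul_pos hq0 hq0) ?_).mono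
      le_rfl (by omega) le_rfl)
  · simp only [Nat.one_mul, Nat.sub_eq]; omega
  · simp only [Nat.one_mul, Nat.sub_eq, Nat.mul_eq]; omega

theorem s37 (hf : Good f) {T : ℕ} (hT : InvD f 1 37 211 1 T)
    (h : chk37 (f 3) (f 5) T (f 37) = true) : False := by
  unfold chk37 at h
  rw [frc_eq] at h
  have hT' : InvD f 1 41 211 1 (Nat.lor T (NL (f 37) (M37 (f 3) (f 5)))) :=
    (hT.mono (by norm_num) le_rfl le_rfl).or
      ((NL_inv hf ((M37_inv hf).mono (by norm_num) le_rfl le_rfl) 37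
        (NS.prime (by norm_num) (by norm_num)) (by norm_num)).mono le_rfl (by norm_num) le_rfl)
  have := step h (hf.lt 41)
    ((forb37_inv hf hT').excl hf 41 (by norm_num) le_rfl le_rfl (by norm_num))
  exact Bool.noConfusion this

theorem s31 (hf : Good f) {T : ℕ} (hT : InvD f 1 31 211 1 T)
    (h : chk31 (f 3) (f 5) T (f 31) = true) : False := by
  unfold chk31 at h
  rw [frc_eq] at h
  have hT' : InvD f 1 37 211 1 (Nat.lor T (NL (f 31) (M31 (f 3) (f 5)))) :=
    (hT.mono (by norm_num) le_rfl le_rfl).or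
      ((NL_inv hf ((M31_inv hf).mono (by norm_num) le_rfl le_rfl) 31
        (NS.prime (by norm_num) (by norm_num)) (by norm_num)).mono le_rfl (by norm_num) le_rfl)
  exact s37 hf hT' (step h (hf.lt 37)
    ((forb37_inv hf hT').excl hf 37 (by norm_num) le_rfl le_rfl (by norm_num)))

theorem s29 (hf : Good f) {T : ℕ} (hT : InvD f 1 29 211 1 T)
    (h : chk29 (f 3) (f 5) (f 7) T (f 29) = true) : False := by
  unfold chk29 at h
  rw [frc_eq] at h
  have hT' : InvD f 1 31 211 1 (Nat.lor T (NL (f 29) (M29 (f 3) (f 5) (f 7)))) :=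
    (hT.mono (by norm_num) le_rfl le_rfl).or
      ((NL_inv hf ((M29_inv hf).mono (by norm_num) le_rfl le_rfl) 29
        (NS.prime (by norm_num) (by norm_num)) (by norm_num)).mono le_rfl (by norm_num) le_rfl)
  exact s31 hf hT' (step h (hf.lt 31)
    ((forb31_inv hf hT').excl hf 31 (by norm_num) le_rfl le_rfl (by norm_num)))

theorem s23 (hf : Good f) {T : ℕ} (hT : InvD f 1 23 211 1 T)
    (h : chk23 (f 3) (f 5) (f 7) T (f 23) = true) : False := by
  unfold chk23 at h
  rw [frc_eq] at h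
  have hT' : InvD f 1 29 211 1 (Nat.lor T (NL (f 23) (M23 (f 3) (f 5) (f 7)))) :=
    (hT.mono (by norm_num) le_rfl le_rfl).or
      ((NL_inv hf ((M23_inv hf).mono (by norm_num) le_rfl le_rfl) 23
        (NS.prime (by norm_num) (by norm_num)) (by norm_num)).mono le_rfl (by norm_num) le_rfl)
  exact s29 hf hT' (step h (hf.lt 29)
    ((forb29_inv hf hT').excl hf 29 (by norm_num) le_rfl le_rfl (by norm_num)))

theorem s19 (hf : Good f) {T : ℕ} (hT : InvD f 1 19 211 1 T)
    (h : chk19 (f 3) (f 5) (f 7) (f 11) T (f 19) = true) : False := by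
  unfold chk19 at h
  rw [frc_eq] at h
  have hT' : InvD f 1 23 211 1 (Nat.lor T (NL (f 19) (M19 (f 3) (f 5) (f 7) (f 11)))) :=
    (hT.mono (by norm_num) le_rfl le_rfl).or
      ((NL_inv hf ((M19_inv hf).mono (by norm_num) le_rfl le_rfl) 19
        (NS.prime (by norm_num) (by norm_num)) (by norm_num)).mono le_rfl (by norm_num) le_rfl)
  exact s23 hf hT' (step h (hf.lt 23)
    ((forb23_inv hf hT').excl hf 23 (by norm_num) le_rfl le_rfl (by norm_num)))

theorem s17 (hf : Good f) {T : ℕ} (hT : InvD f 1 17 211 1 T)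
    (h : chk17 (f 3) (f 5) (f 7) (f 11) T (f 17) = true) : False := by
  unfold chk17 at h
  rw [frc_eq] at h
  have hT' : InvD f 1 19 211 1 (Nat.lor T (NL (f 17) (M17 (f 3) (f 5) (f 7) (f 11)))) :=
    (hT.mono (by norm_num) le_rfl le_rfl).or
      ((NL_inv hf ((M17_inv hf).mono (by norm_num) le_rfl le_rfl) 17
        (NS.prime (by norm_num) (by norm_num)) (by norm_num)).mono le_rfl (by norm_num) le_rfl)
  exact s19 hf hT' (step h (hf.lt 19)
    ((forb19_inv hf hT').excl hf 19 (by norm_num) le_rfl le_rfl (by norm_num)))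

theorem up7 (hf : Good f) {l q0 K1 K2 X : ℕ} (h : InvD f l q0 K1 K2 X) (q : ℕ) (s : ℕ)
    (hq : Nat.Prime q) (hq0 : q < q0) (hs : (l * s + f q) % 211 = 0) :
    InvD f l q0 (q * K1) K2 (Nat.shiftRight X s) :=
  h.up hf q s (NS.prime hq hq0) hq.pos hs

theorem M13_inv (hf : Good f) {mp : ℕ} (h : InvD f 1 7 16 1 mp) :
    InvD f 1 13 16 1 (M13 mp (f 7) (f 11)) := by
  have l7 := hf.lt 7
  have l11 := hf.lt 11
  refine ((h.mono (by norm_num) le_rfl le_rfl).or
    ((up7 hf ((O2_inv hf).mono (by norm_num) le_rfl le_rfl) 7 _ (by norm_num) (by norm_num) ?_).mono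
      le_rfl (by norm_num) le_rfl)).or
    ((up7 hf ((OO_inv hf).mono (by norm_num) le_rfl le_rfl) 11 _ (by norm_num) (by norm_num) ?_).mono
      le_rfl (by norm_num) le_rfl)
  · simp only [Nat.one_mul, Nat.sub_eq]; omega
  · simp only [Nat.one_mul, Nat.sub_eq]; omega

theorem s13 (hf : Good f) {T mp : ℕ} (hT : InvD f 1 13 211 1 T) (hmp : InvD f 1 7 16 1 mp)
    (h : chk13 (f 3) (f 5) (f 7) mp T (f 11) (f 13) = true) : False := by
  unfold chk13 at h
  have h0 : Nat.land 1 (Nat.shiftRight T (Nat.mul 2 (f 13))) = 0 := by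
    have h1 := hT.exclsq hf 13 (by norm_num) le_rfl le_rfl (by norm_num)
    have h2 : ((1 &&& (T >>> (2 * f 13))) != 0) = false := h1
    have h3 : (1 &&& (T >>> (2 * f 13))) = 0 := by simpa using h2
    exact h3
  have h := ifz_spec h h0
  rw [frc_eq] at h
  have hT' : InvD f 1 17 211 1 (Nat.lor T (N11 (f 13) (M13 mp (f 7) (f 11)))) :=
    (hT.mono (by norm_num) le_rfl le_rfl).or
      (N11_inv hf ((M13_inv hf hmp).mono (by norm_num) le_rfl le_rfl) 13
        (NS.prime (by norm_num) (by norm_num)) (by norm_num) (by norm_num) (by norm_num)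
        (by norm_num))
  exact s17 hf hT' (step h (hf.lt 17)
    ((forb17_inv hf hT').excl hf 17 (by norm_num) le_rfl le_rfl (by norm_num)))

theorem s11 (hf : Good f) {T mp m FM GO H : ℕ} (hT : InvD f 1 11 211 1 T)
    (hmp : InvD f 1 7 16 1 mp) (hm : InvD f 1 11 19 1 m) (hFM : InvD f 1 11 211 16 FM)
    (hGO : InvD f 1 11 19 16 GO) (hH : InvD f 1 11 1 16 H)
    (h : chk11 (f 3) (f 5) (f 7) mp m FM GO H T (f 11) = true) : False := by
  unfold chk11 at h
  have l11 := hf.lt 11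
  have v121 := hf.v (m := 11) (n := 11) (k := 121) (by norm_num) (by norm_num) (by norm_num)
  have hT' : InvD f 1 13 211 1 (Nat.lor T (N11 (f 11) m)) :=
    (hT.mono (by norm_num) le_rfl le_rfl).or
      (N11_inv hf (hm.mono (by norm_num) le_rfl le_rfl) 11
        (NS.prime (by norm_num) (by norm_num)) (by norm_num) (by norm_num) (by norm_num)
        (by norm_num))
  have hmask : InvD f 1 13 211 16 (Nat.lor (Nat.lor (Nat.lor FM
      (Nat.shiftRight GO (Nat.sub 211 (f 11))))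
      (Nat.shiftRight H (Nat.sub 422 (Nat.mul 2 (f 11))))) (Nat.shiftRight T (f 11))) := by
    refine (((hFM.mono (by norm_num) le_rfl le_rfl).or
      ((up7 hf (hGO.mono (by norm_num) le_rfl le_rfl) 11 _ (by norm_num) (by norm_num) ?_).mono
        le_rfl (by norm_num) le_rfl)).or
      (((hH.mono (by norm_num) le_rfl le_rfl).up hf 121 _ ?_ (by norm_num) ?_).mono
        le_rfl (by norm_num) le_rfl)).or
      (((hT.mono (by norm_num) le_rfl le_rfl).down hf 11 _ (by norm_num) ?_).mono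
        le_rfl le_rfl (by norm_num))
    · simp only [Nat.one_mul, Nat.sub_eq]; omega
    · exact NS.mul (a := 11) (b := 11) (NS.prime (by norm_num) (by norm_num))
        (NS.prime (by norm_num) (by norm_num))
    · simp only [Nat.one_mul, Nat.sub_eq, Nat.mul_eq]; omega
    · omega
  exact s13 hf hT' hmp (step h (hf.lt 13)
    (hmask.excl hf 13 (by norm_num) le_rfl le_rfl (by norm_num)))

theorem dm_inv (hf : Good f) {E Tq G7 G49 K : ℕ} (hK : 14 ≤ K) (hE : InvD f 1 11 211 K E)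
    (hTq : InvD f 1 7 211 2 Tq) (hG7 : InvD f 1 11 30 K G7) (hG49 : InvD f 1 11 4 K G49) :
    InvD f 1 11 211 K (dm E Tq G7 G49 (f 7)) := by
  have l7 := hf.lt 7
  have v49 := hf.v (m := 7) (n := 7) (k := 49) (by norm_num) (by norm_num) (by norm_num)
  refine ((hE.or (((hTq.mono (by norm_num) le_rfl le_rfl).down hf 7 _ (by norm_num) ?_).mono
        le_rfl le_rfl (by omega))).or
    ((up7 hf (hG7.mono (by norm_num) le_rfl le_rfl) 7 _ (by norm_num) (by norm_num) ?_).mono
        le_rfl (by norm_num) le_rfl)).or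
    (((hG49.mono (by norm_num) le_rfl le_rfl).up hf 49 _ ?_ (by norm_num) ?_).mono
        le_rfl (by norm_num) le_rfl)
  · omega
  · simp only [Nat.one_mul, Nat.sub_eq]; omega
  · exact NS.mul (a := 7) (b := 7) (NS.prime (by norm_num) (by norm_num))
        (NS.prime (by norm_num) (by norm_num))
  · simp only [Nat.one_mul, Nat.sub_eq, Nat.mul_eq]; omega

theorem hm_inv (hf : Good f) {Th m7h m49h : ℕ} (hTh : InvD f 2 7 211 1 Th)
    (h7 : InvD f 2 7 30 1 m7h) (h49 : InvD f 2 5 4 1 m49h) :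
    InvD f 2 11 211 1 (hm Th m7h m49h (f 7)) := by
  have l7 := hf.lt 7
  have v49 := hf.v (m := 7) (n := 7) (k := 49) (by norm_num) (by norm_num) (by norm_num)
  refine ((hTh.mono (by norm_num) le_rfl le_rfl).or
    ((up7 hf (h7.mono (by norm_num) le_rfl le_rfl) 7 _ (by norm_num) (by norm_num) ?_).mono
        le_rfl (by norm_num) le_rfl)).or
    (((h49.mono (by norm_num) le_rfl le_rfl).up hf 49 _ ?_ (by norm_num) ?_).mono
        le_rfl (by norm_num) le_rfl)
  · simp only [hlf, Nat.sub_eq, mod_raw, Nat.mul_eq]; omega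
  · exact NS.mul (a := 7) (b := 7) (NS.prime (by norm_num) (by norm_num))
        (NS.prime (by norm_num) (by norm_num))
  · simp only [Nat.sub_eq]; omega

theorem N7_inv (hf : Good f) {m7 m49 : ℕ} (h7 : InvD f 1 7 30 1 m7) (h49 : InvD f 1 5 4 1 m49) :
    InvD f 1 11 211 1 (N7 (f 7) m7 m49) := by
  have l7 := hf.lt 7
  have v49 := hf.v (m := 7) (n := 7) (k := 49) (by norm_num) (by norm_num) (by norm_num)
  refine ((up7 hf (h7.mono (by norm_num) le_rfl le_rfl) 7 _ (by norm_num) (by norm_num) ?_).mono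
        le_rfl (by norm_num) le_rfl).or
    (((h49.mono (by norm_num) le_rfl le_rfl).up hf 49 _ ?_ (by norm_num) ?_).mono
        le_rfl (by norm_num) le_rfl)
  · simp only [Nat.one_mul, Nat.sub_eq]; omega
  · exact NS.mul (a := 7) (b := 7) (NS.prime (by norm_num) (by norm_num))
        (NS.prime (by norm_num) (by norm_num))
  · simp only [Nat.one_mul, Nat.sub_eq, Nat.mul_eq]; omega

theorem s7 (hf : Good f) {T Th m7 m49 m7h m49h m11p mp E13 G713 G4913 E11 G711 G4911 Tq G0 G1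
      M11q H0 : ℕ}
    (hT : InvD f 1 7 211 1 T) (hTh : InvD f 2 7 211 1 Th)
    (hm7 : InvD f 1 7 30 1 m7) (hm49 : InvD f 1 5 4 1 m49)
    (hm7h : InvD f 2 7 30 1 m7h) (hm49h : InvD f 2 5 4 1 m49h)
    (hm11p : InvD f 1 7 18 1 m11p) (hmp : InvD f 1 7 16 1 mp)
    (hE13 : InvD f 1 11 211 16 E13) (hG713 : InvD f 1 11 30 16 G713)
    (hG4913 : InvD f 1 11 4 16 G4913)
    (hE11 : InvD f 1 11 211 18 E11) (hG711 : InvD f 1 11 30 18 G711)
    (hG4911 : InvD f 1 11 4 18 G4911)
    (hTq : InvD f 1 7 211 2 Tq)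
    (hG0 : InvD f 1 11 19 16 G0) (hG1 : InvD f 1 7 2 16 G1) (hM11q : InvD f 1 7 18 2 M11q)
    (hH0 : InvD f 1 7 1 16 H0)
    (h : chk7 (f 3) (f 5) T Th m7 m49 m7h m49h m11p mp E13 G713 G4913 E11 G711 G4911 Tq G0 G1
      M11q H0 (f 7) = true) : False := by
  unfold chk7 at h
  rw [frc_eq, frc_eq, frc_eq, frc_eq, frc_eq] at h
  have l7 := hf.lt 7
  have hm : InvD f 1 11 19 1 (Nat.lor m11p (Nat.shiftRight O2 (Nat.sub 211 (f 7)))) := by
    refine (hm11p.mono (by norm_num) (by norm_num) le_rfl).or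
      ((up7 hf ((O2_inv hf).mono (by norm_num) le_rfl le_rfl) 7 _ (by norm_num) (by norm_num)
        ?_).mono le_rfl (by norm_num) le_rfl)
    simp only [Nat.one_mul, Nat.sub_eq]; omega
  have hFM := (hm.mono le_rfl (by norm_num) (by norm_num)).or
    (dm_inv hf (by norm_num) hE13 hTq hG713 hG4913)
  have hGO : InvD f 1 11 19 16 (Nat.lor (Nat.lor G0 (Nat.shiftRight G1 (Nat.sub 211 (f 7))))
      (Nat.shiftRight M11q (f 7))) := by
    refine (hG0.or ((up7 hf (hG1.mono (by norm_num) le_rfl le_rfl) 7 _ (by norm_num) (by norm_num)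
        ?_).mono le_rfl (by norm_num) le_rfl)).or
      (((hM11q.mono (by norm_num) le_rfl le_rfl).down hf 7 _ (by norm_num) ?_).mono
        le_rfl (by norm_num) (by norm_num))
    · simp only [Nat.one_mul, Nat.sub_eq]; omega
    · omega
  have hH : InvD f 1 11 1 16 (Nat.lor H0 (Nat.shiftRight ON (f 7))) := by
    refine (hH0.mono (by norm_num) le_rfl le_rfl).or
      ((((ON_inv hf).mono (by norm_num) le_rfl le_rfl).down hf 7 _ (by norm_num) ?_).mono
        le_rfl le_rfl (by norm_num))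
    omega
  have hT' := (hT.mono (by norm_num : 7 ≤ 11) le_rfl le_rfl).or (N7_inv hf hm7 hm49)
  refine s11 hf hT' hmp hm hFM hGO hH (step h (hf.lt 11) (lor_bit ?_ ?_))
  · exact (dm_inv hf (by norm_num) hE11 hTq hG711 hG4911).excl hf 11 (by norm_num) le_rfl le_rfl
      (by norm_num)
  · exact (hm_inv hf hTh hm7h hm49h).excl2 hf 11 (by norm_num) le_rfl le_rfl (by norm_num)

theorem R18_inv (hf : Good f) {q0 q1 K1 K1' E T : ℕ} (hE : InvD f 1 q0 K1 16 E)
    (hT : InvD f 1 q1 K1' 1 T) (hq : q1 ≤ q0) (hK : K1' ≤ K1) :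
    InvD f 1 q0 K1 18 (R18 E T (f 3)) := by
  have l3 := hf.lt 3
  have v9 := hf.v (m := 3) (n := 3) (k := 9) (by norm_num) (by norm_num) (by norm_num)
  have v18 := hf.v (m := 9) (n := 2) (k := 18) (by norm_num) (by norm_num) (by norm_num)
  have v2 := hf.two
  refine (hE.mono le_rfl le_rfl (by norm_num)).or
    (((hT.mono hq hK le_rfl).down hf 18 _ (by norm_num) ?_).mono le_rfl le_rfl (by norm_num))
  simp only [Nat.one_mul, Nat.mul_eq, Nat.add_eq]; omega

theorem N5_inv (hf : Good f) {m m2 : ℕ} (h5 : InvD f 1 5 42 1 m) (h25 : InvD f 1 5 8 1 m2) :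
    InvD f 1 7 211 1 (N5 (f 5) m m2) := by
  have l5 := hf.lt 5
  have v25 := hf.v (m := 5) (n := 5) (k := 25) (by norm_num) (by norm_num) (by norm_num)
  have v125 := hf.v (m := 25) (n := 5) (k := 125) (by norm_num) (by norm_num) (by norm_num)
  have n5 : NS 7 5 := NS.prime (by norm_num) (by norm_num)
  refine (((h5.mono (by norm_num) le_rfl le_rfl).up hf 5 _ n5 (by norm_num) ?_).mono
        le_rfl (by norm_num) le_rfl).or
    (((h25.mono (by norm_num) le_rfl le_rfl).up hf 25 _ (NS.mul n5 n5) (by norm_num) ?_).mono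
        le_rfl (by norm_num) le_rfl) |>.or
    ((((OO_inv hf).mono (by norm_num) le_rfl le_rfl).up hf 125 _ (NS.mul (NS.mul n5 n5) n5)
      (by norm_num) ?_).mono le_rfl (by norm_num) le_rfl)
  · simp only [Nat.one_mul, Nat.sub_eq]; omega
  · simp only [Nat.one_mul, Nat.sub_eq, Nat.mul_eq]; omega
  · simp only [Nat.one_mul, Nat.sub_eq, Nat.mul_eq]; omega

theorem N5_invQ (hf : Good f) {m m2 : ℕ} (h5 : InvD f 1 5 42 1 m) (h25 : InvD f 1 5 8 1 m2) :
    InvQ f 5 (N5 (f 5) m m2) := by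
  have l5 := hf.lt 5
  have v25 := hf.v (m := 5) (n := 5) (k := 25) (by norm_num) (by norm_num) (by norm_num)
  have v125 := hf.v (m := 25) (n := 5) (k := 125) (by norm_num) (by norm_num) (by norm_num)
  refine ((h5.upQ hf 5 5 _ (by norm_num) (by norm_num) (by norm_num) ?_).or
    (h25.upQ hf 5 25 _ (by norm_num) (by norm_num) (by norm_num) ?_)).or
    ((OO_inv hf).upQ hf 5 125 _ (by norm_num) (by norm_num) (by norm_num) ?_)
  · simp only [Nat.sub_eq]; omega
  · simp only [Nat.sub_eq, Nat.mul_eq]; omega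
  · simp only [Nat.sub_eq, Nat.mul_eq]; omega

theorem N5h_inv (hf : Good f) {m m2 : ℕ} (h5 : InvD f 2 5 42 1 m) (h25 : InvD f 2 5 8 1 m2) :
    InvD f 2 7 211 1 (N5h (f 5) m m2) := by
  have l5 := hf.lt 5
  have v25 := hf.v (m := 5) (n := 5) (k := 25) (by norm_num) (by norm_num) (by norm_num)
  have v125 := hf.v (m := 25) (n := 5) (k := 125) (by norm_num) (by norm_num) (by norm_num)
  have n5 : NS 7 5 := NS.prime (by norm_num) (by norm_num)
  refine (((h5.mono (by norm_num) le_rfl le_rfl).up hf 5 _ n5 (by norm_num) ?_).mono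
        le_rfl (by norm_num) le_rfl).or
    (((h25.mono (by norm_num) le_rfl le_rfl).up hf 25 _ (NS.mul n5 n5) (by norm_num) ?_).mono
        le_rfl (by norm_num) le_rfl) |>.or
    ((((OO_inv2 hf).mono (by norm_num) le_rfl le_rfl).up hf 125 _ (NS.mul (NS.mul n5 n5) n5)
      (by norm_num) ?_).mono le_rfl (by norm_num) le_rfl)
  · simp only [hlf, Nat.sub_eq, mod_raw, Nat.mul_eq]; omega
  · simp only [Nat.sub_eq]; omega
  · simp only [hlf, Nat.sub_eq, mod_raw, Nat.mul_eq]; omega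

theorem hb7_inv (hf : Good f) {Th : ℕ} (hTh : InvD f 2 7 211 1 Th) :
    InvD f 2 7 211 4 (hb7 Th (f 3)) := by
  have l3 := hf.lt 3
  have v2 := hf.two
  have v4 := hf.pow2 2 (by norm_num)
  norm_num at v4
  refine (((hTh.mono le_rfl le_rfl (by norm_num)).or
    ((hTh.down hf 2 _ (by norm_num) ?_).mono le_rfl le_rfl (by norm_num))).or
    ((hTh.down hf 4 _ (by norm_num) ?_).mono le_rfl le_rfl (by norm_num))).or
    ((hTh.down hf 3 _ (by norm_num) ?_).mono le_rfl le_rfl (by norm_num))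
  · show (2 * 106) % 211 = f 2
    omega
  · show (2 * 1) % 211 = f 4
    omega
  · simp only [hlf, mod_raw, Nat.mul_eq]; omega

theorem s5 (hf : Good f) {T Th m49 m49h m5 m25 m5h m25h : ℕ}
    (hT : InvD f 1 5 211 1 T) (hTh : InvD f 2 5 211 1 Th)
    (hm49 : InvD f 1 5 4 1 m49) (hm49h : InvD f 2 5 4 1 m49h)
    (hm5 : InvD f 1 5 42 1 m5) (hm25 : InvD f 1 5 8 1 m25)
    (hm5h : InvD f 2 5 42 1 m5h) (hm25h : InvD f 2 5 8 1 m25h)
    (h : chk5 (f 3) m49 m49h T Th m5 m25 m5h m25h (f 5) = true) : False := by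
  unfold chk5 at h
  have h := ifz_spec h (land_zero hf hT 5 (N5_invQ hf hm5 hm25) (by norm_num) le_rfl _)
  simp only [frc_eq] at h
  have hT' := (hT.mono (by norm_num : 5 ≤ 7) le_rfl le_rfl).or (N5_inv hf hm5 hm25)
  have hTh' := (hTh.mono (by norm_num : 5 ≤ 7) le_rfl le_rfl).or (N5h_inv hf hm5h hm25h)
  have hm7 := M7_inv hf
  have hm7h := M7h_inv hf
  have hm11p := M11p_inv hf
  have hmp := M13p_inv hf
  have n7 : NS 11 7 := NS.prime (by norm_num) (by norm_num)
  have n7' : NS 11 7 := NS.prime (by norm_num) (by norm_num)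
  have hE13 : InvD f 1 11 211 16 (Nat.lor (R13 (Nat.lor T (N5 (f 5) m5 m25)) (f 3) (f 5))
      (S2 (M7 (f 3) (f 5)))) :=
    ((R13_inv hf hT').mono (by norm_num) le_rfl le_rfl).or
      ((((S2_inv hf hm7).mono (by norm_num : 7 ≤ 11) le_rfl le_rfl).both hf 7 n7 (by norm_num)).mono
        le_rfl (by norm_num) (by norm_num))
  have hG713 : InvD f 1 11 30 16 (Nat.lor (R13 (M7 (f 3) (f 5)) (f 3) (f 5)) (S2 m49)) :=
    ((R13_inv hf hm7).mono (by norm_num) le_rfl le_rfl).or
      ((((S2_inv hf hm49).mono (by norm_num : 5 ≤ 11) le_rfl le_rfl).both hf 7 n7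
        (by norm_num)).mono le_rfl (by norm_num) (by norm_num))
  have hG4913 : InvD f 1 11 4 16 (R13 m49 (f 3) (f 5)) :=
    (R13_inv hf hm49).mono (by norm_num) le_rfl le_rfl
  have hG0 : InvD f 1 11 19 16 (Nat.lor (R13 (M11p (f 3) (f 5)) (f 3) (f 5)) OB) :=
    ((R13_inv hf hm11p).mono (by norm_num) (by norm_num) le_rfl).or
      ((OB_inv hf).mono (by norm_num) (by norm_num) (by norm_num))
  have hG1 : InvD f 1 7 2 16 (R13 O2 (f 3) (f 5)) :=
    (R13_inv hf (O2_inv hf)).mono (by norm_num) (by norm_num) le_rfl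
  have hM11q : InvD f 1 7 18 2 (S2 (M11p (f 3) (f 5))) :=
    (S2_inv hf hm11p).mono le_rfl le_rfl (by norm_num)
  have hH0 : InvD f 1 7 1 16 (R13 OO (f 3) (f 5)) :=
    (R13_inv hf (OO_inv hf)).mono (by norm_num) (by norm_num) le_rfl
  refine s7 hf hT' hTh' hm7 hm49 hm7h hm49h hm11p hmp hE13 hG713 hG4913
    (R18_inv hf hE13 hT' (by norm_num) le_rfl) (R18_inv hf hG713 hm7 (by norm_num) le_rfl)
    (R18_inv hf hG4913 hm49 (by norm_num) le_rfl)
    ((S2_inv hf hT').mono le_rfl le_rfl (by norm_num)) hG0 hG1 hM11q hH0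
    (step h (hf.lt 7) (lor_bit ?_ ?_))
  · exact (forb7_inv hf hT').excl hf 7 (by norm_num) le_rfl le_rfl (by norm_num)
  · exact (hb7_inv hf hTh').excl2 hf 7 (by norm_num) le_rfl le_rfl (by norm_num)

theorem N3_inv (hf : Good f) : InvD f 1 5 211 1 (N3 (f 3)) := by
  have l3 := hf.lt 3
  have v9 := hf.v (m := 3) (n := 3) (k := 9) (by norm_num) (by norm_num) (by norm_num)
  have v27 := hf.v (m := 9) (n := 3) (k := 27) (by norm_num) (by norm_num) (by norm_num)
  have v81 := hf.v (m := 27) (n := 3) (k := 81) (by norm_num) (by norm_num) (by norm_num)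
  have n3 : NS 5 3 := NS.prime (by norm_num) (by norm_num)
  refine (((((O7_inv hf).mono (by norm_num) le_rfl le_rfl).up hf 3 _ n3 (by norm_num) ?_).mono
        le_rfl (by norm_num) le_rfl).or
    ((((O5_inv hf).mono (by norm_num) le_rfl le_rfl).up hf 9 _ (NS.mul n3 n3) (by norm_num)
      ?_).mono le_rfl (by norm_num) le_rfl)).or
    ((((O3_inv hf).mono (by norm_num) le_rfl le_rfl).up hf 27 _ (NS.mul (NS.mul n3 n3) n3)
      (by norm_num) ?_).mono le_rfl (by norm_num) le_rfl) |>.or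
    ((((O2_inv hf).mono (by norm_num) le_rfl le_rfl).up hf 81 _
      (NS.mul (NS.mul (NS.mul n3 n3) n3) n3)
      (by norm_num) ?_).mono le_rfl (by norm_num) le_rfl)
  · simp only [Nat.one_mul, Nat.sub_eq]; omega
  · simp only [Nat.one_mul, Nat.sub_eq, Nat.mul_eq]; omega
  · simp only [Nat.one_mul, Nat.sub_eq, Nat.mul_eq]; omega
  · simp only [Nat.one_mul, Nat.sub_eq, Nat.mul_eq]; omega

theorem N3_invQ (hf : Good f) : InvQ f 3 (N3 (f 3)) := by
  have l3 := hf.lt 3
  have v9 := hf.v (m := 3) (n := 3) (k := 9) (by norm_num) (by norm_num) (by norm_num)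
  have v27 := hf.v (m := 9) (n := 3) (k := 27) (by norm_num) (by norm_num) (by norm_num)
  have v81 := hf.v (m := 27) (n := 3) (k := 81) (by norm_num) (by norm_num) (by norm_num)
  refine (((O7_inv hf).upQ hf 3 3 _ (by norm_num) (by norm_num) (by norm_num) ?_).or
    ((O5_inv hf).upQ hf 3 9 _ (by norm_num) (by norm_num) (by norm_num) ?_)).or
    ((O3_inv hf).upQ hf 3 27 _ (by norm_num) (by norm_num) (by norm_num) ?_) |>.or
    ((O2_inv hf).upQ hf 3 81 _ (by norm_num) (by norm_num) (by norm_num) ?_)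
  · simp only [Nat.sub_eq]; omega
  · simp only [Nat.sub_eq, Nat.mul_eq]; omega
  · simp only [Nat.sub_eq, Nat.mul_eq]; omega
  · simp only [Nat.sub_eq, Nat.mul_eq]; omega

theorem TH3_inv (hf : Good f) : InvD f 2 5 211 1 (TH3 (hlf (f 3))) := by
  have l3 := hf.lt 3
  have v9 := hf.v (m := 3) (n := 3) (k := 9) (by norm_num) (by norm_num) (by norm_num)
  have v27 := hf.v (m := 9) (n := 3) (k := 27) (by norm_num) (by norm_num) (by norm_num)
  have v81 := hf.v (m := 27) (n := 3) (k := 81) (by norm_num) (by norm_num) (by norm_num)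
  have n3 : NS 5 3 := NS.prime (by norm_num) (by norm_num)
  refine ((((H8_inv hf).mono (by norm_num) (by norm_num) le_rfl).or
    ((((H7_inv hf).mono (by norm_num) le_rfl le_rfl).up hf 3 _ n3 (by norm_num) ?_).mono
        le_rfl (by norm_num) le_rfl)).or
    ((((H5_inv hf).mono (by norm_num) le_rfl le_rfl).up hf 9 _ (NS.mul n3 n3) (by norm_num)
      ?_).mono le_rfl (by norm_num) le_rfl)).or
    ((((H3_inv hf).mono (by norm_num) le_rfl le_rfl).up hf 27 _ (NS.mul (NS.mul n3 n3) n3)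
      (by norm_num) ?_).mono le_rfl (by norm_num) le_rfl) |>.or
    ((((H2_inv hf).mono (by norm_num) le_rfl le_rfl).up hf 81 _
      (NS.mul (NS.mul (NS.mul n3 n3) n3) n3)
      (by norm_num) ?_).mono le_rfl (by norm_num) le_rfl)
  · simp only [hlf, Nat.sub_eq, mod_raw, Nat.mul_eq]; omega
  · simp only [hlf, Nat.sub_eq, mod_raw, Nat.mul_eq]; omega
  · simp only [hlf, Nat.sub_eq, mod_raw, Nat.mul_eq]; omega
  · simp only [hlf, Nat.sub_eq, mod_raw, Nat.mul_eq]; omega

theorem s3 (hf : Good f) (h : chk3 (f 3) = true) : False := by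
  unfold chk3 at h
  have hT2 := T2_inv hf
  have h := ifz_spec h (land_zero hf (hT2.mono le_rfl (by norm_num) le_rfl) 3 (N3_invQ hf)
    (by norm_num) le_rfl _)
  simp only [frc_eq] at h
  have hT := (hT2.mono (by norm_num : 3 ≤ 5) (by norm_num) le_rfl).or (N3_inv hf)
  exact s5 hf hT (TH3_inv hf) (M49_inv hf) (M49h_inv hf)
    ((M5_inv hf).mono le_rfl (by norm_num) le_rfl) (M25_inv hf)
    ((M5h_inv hf).mono le_rfl (by norm_num) le_rfl) (M25h_inv hf) (step h (hf.lt 5)
      ((forb5_inv hf hT).excl hf 5 (by norm_num) le_rfl le_rfl (by norm_num)))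

end Pool.Agent.Lib.MP_0f64a9_nt
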