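import Mathlib
import Pool.Agent.Lib.MP_0f64a9_nt.Sound2
import Pool.Agent.Lib.MP_0f64a9_nt.Chk0
import Pool.Agent.Lib.MP_0f64a9_nt.Chk1
import Pool.Agent.Lib.MP_0f64a9_nt.Chk2
import Pool.Agent.Lib.MP_0f64a9_nt.Chk3
import Pool.Agent.Lib.MP_0f64a9_nt.Chk4
import Pool.Agent.Lib.MP_0f64a9_nt.Chk5
import Pool.Agent.Lib.MP_0f64a9_nt.Chk6
import Pool.Agent.Lib.MP_0f64a9_nt.Chk7
import Pool.Agent.Lib.MP_0f64a9_nt.Chk8
import Pool.Agent.Lib.MP_0f64a9_nt.Chk9
import Pool.Agent.Lib.MP_0f64a9_nt.Chk10
import Pool.Agent.Lib.MP_0f64a9_nt.Chk11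

set_option autoImplicit false
namespace Pool.Agent.Lib.MP_0f64a9_nt

theorem chk_all : ∀ a, a < 211 → chk3 a = true := by
  intro a ha
  interval_cases a
  exacts [k0, k1, k2, k3, k4, k5, k6, k7, k8, k9, k10, k11, k12, k13, k14, k15, k16, k17, k18, k19, k20, k21, k22, k23, k24, k25, k26, k27, k28, k29, k30, k31, k32, k33, k34, k35, k36, k37, k38, k39, k40, k41, k42, k43, k44, k45, k46, k47, k48, k49, k50, k51, k52, k53, k54, k55, k56, k57, k58, k59, k60, k61, k62, k63, k64, k65, k66, k67, k68, k69, k70, k71, k72, k73, k74, k75, k76, k77, k78, k79, k80, k81, k82, k83, k84, k85, k86, k87, k88, k89, k90, k91, k92, k93, k94, k95, k96, k97, k98, k99, k100, k101, k102, k103, k104, k105, k106, k107, k108, k109, k110, k111, k112, k113, k114, k115, k116, k117, k118, k119, k120, k121, k122, k123, k124, k125, k126, k127, k128, k129, k130, k131, k132, k133, k134, k135, k136, k137, k138, k139, k140, k141, k142, k143, k144, k145, k146, k147, k148, k149, k150, k151, k152, k153, k154, k155, k156,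 k157, k158, k159, k160, k161, k162, k163, k164, k165, k166, k167, k168, k169, k170, k171, k172, k173, k174, k175, k176, k177, k178, k179, k180, k181, k182, k183, k184, k185, k186, k187, k188, k189, k190, k191, k192, k193, k194, k195, k196, k197, k198, k199, k200, k201, k202, k203, k204, k205, k206, k207, k208, k209, k210]

/-- there is no completely additive bijection from `[1, 211]` to `ℤ/211` with `f 2 = 1` -/
theorem no_good (f : ℕ → ℕ) : ¬ Good f := fun hf => s3 hf (chk_all _ (hf.lt 3))

end Pool.Agent.Lib.MP_0f64a9_nt
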