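import Mathlib
set_option autoImplicit false
namespace Pool.Agent.Lib.MP_0f64a9_nt
open Finset

section frob
variable {p : ℕ} [hp : Fact p.Prime]

omit hp in
/-- exactly one `i` with a given color -/
theorem exactly_one {c : ℕ → Fin p} (hc : ∀ a : ℕ, 0 < a → Set.InjOn (fun i : ℕ => c (i * a)) (Set.Icc 1 p))
    (κ : Fin p) (b : ℕ) (hb : 0 < b) :
    ∑ i ∈ Finset.Icc 1 p, (if c (i * b) = κ then (1 : ℕ) else 0) = 1 := by
  rw [← Finset.card_filter]
  have hinj : Set.InjOn (fun i : ℕ => c (i * b)) (Finset.Icc 1 p : Finset ℕ) := by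
    intro x hx y hy h
    exact hc b hb (by simpa using hx) (by simpa using hy) h
  have himg : (Finset.Icc 1 p).image (fun i : ℕ => c (i * b)) = Finset.univ := by
    apply Finset.eq_univ_of_card
    rw [Finset.card_image_of_injOn hinj]
    simp
  rw [Finset.card_eq_one]
  have hk : κ ∈ (Finset.Icc 1 p).image (fun i : ℕ => c (i * b)) := by rw [himg]; simp
  rw [Finset.mem_image] at hk
  obtain ⟨i, hi, hik⟩ := hk
  refine ⟨i, ?_⟩
  ext j
  simp only [Finset.mem_filter, Finset.mem_singleton]
  constructor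
  · rintro ⟨hj, hj2⟩
    exact hinj (by exact_mod_cast hj) (by exact_mod_cast hi) (by simp only [hj2, hik])
  · rintro rfl
    exact ⟨hi, hik⟩

/-- dilation operator -/
noncomputable def dil (p i : ℕ) : Module.End (ZMod p) (ℕ → ZMod p) :=
  LinearMap.funLeft (ZMod p) (ZMod p) (fun m => i * m)

theorem dil_apply (p i : ℕ) (f : ℕ → ZMod p) (m : ℕ) : dil p i f m = f (i * m) := rfl

theorem dil_commute (p i j : ℕ) : Commute (dil p i) (dil p j) := by
  ext f m
  simp only [Module.End.mul_apply, dil_apply]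
  congr 1
  ring

theorem dil_pow (p i k : ℕ) : dil p i ^ k = dil p (i ^ k) := by
  induction k with
  | zero => ext f m; simp [dil_apply]
  | succ n ih =>
    rw [pow_succ, ih]
    apply LinearMap.ext
    intro f
    funext m
    simp only [Module.End.mul_apply, dil_apply]
    congr 1
    ring

theorem frob_op (s : Finset ℕ) :
    (∑ i ∈ s, dil p i) ^ p = ∑ i ∈ s, dil p (i ^ p) := by
  classical
  have hch : CharP (Module.End (ZMod p) (ℕ → ZMod p)) p :=
    charP_of_injective_algebraMap (algebraMap (ZMod p) (Module.End (ZMod p) (ℕ → ZMod p))).injective p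
  induction s using Finset.induction_on with
  | empty => simp [hp.out.ne_zero]
  | insert a s ha ih =>
    rw [Finset.sum_insert ha, Finset.sum_insert ha, add_pow_char_of_commute, ih, dil_pow]
    exact Commute.sum_right _ _ _ (fun j _ => dil_commute p a j)

theorem frob_sum {c : ℕ → Fin p} (hc : ∀ a : ℕ, 0 < a → Set.InjOn (fun i : ℕ => c (i * a)) (Set.Icc 1 p))
    (κ : Fin p) (b : ℕ) (hb : 0 < b) :
    ((∑ i ∈ Finset.Icc 1 p, (if c (i ^ p * b) = κ then (1 : ℕ) else 0) : ℕ) : ZMod p) = 0 := by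
  classical
  let g : ℕ → ZMod p := fun m => if 0 < m ∧ c m = κ then 1 else 0
  let e : ℕ → ZMod p := fun m => if 0 < m then 1 else 0
  let T : Module.End (ZMod p) (ℕ → ZMod p) := ∑ i ∈ Finset.Icc 1 p, dil p i
  have hTg : T g = e := by
    funext m
    simp only [T, LinearMap.sum_apply, Finset.sum_apply, dil_apply, g, e]
    by_cases hm : 0 < m
    · rw [if_pos hm]
      have h1 := exactly_one hc κ m hm
      have h2 : ((∑ i ∈ Finset.Icc 1 p, (if c (i * m) = κ then (1 : ℕ) else 0) : ℕ) : ZMod p) = 1 := by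
        rw [h1]; simp
      refine Eq.trans ?_ h2
      push_cast
      refine Finset.sum_congr rfl fun i hi => ?_
      have : 0 < i * m := Nat.mul_pos (Finset.mem_Icc.mp hi).1 hm
      simp only [this, true_and]
    · rw [if_neg hm]
      have : m = 0 := by omega
      subst this
      simp
  have hTe : T e = 0 := by
    funext m
    simp only [T, LinearMap.sum_apply, Finset.sum_apply, dil_apply, e]
    by_cases hm : 0 < m
    · have : ∀ i ∈ Finset.Icc 1 p, (if 0 < i * m then (1 : ZMod p) else 0) = 1 := by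
        intro i hi
        have : 0 < i * m := Nat.mul_pos (Finset.mem_Icc.mp hi).1 hm
        simp [this]
      rw [Finset.sum_congr rfl this]
      simp
    · have : m = 0 := by omega
      subst this
      simp
  have hTp : (T ^ p) g = 0 := by
    have h2 : T ^ p = T ^ (p - 2) * T * T := by
      rw [← pow_succ, ← pow_succ]
      congr 1
      have := hp.out.two_le
      omega
    rw [h2, Module.End.mul_apply, Module.End.mul_apply, hTg, hTe, map_zero]
  have hF : (T ^ p) g b = ∑ i ∈ Finset.Icc 1 p, g (i ^ p * b) := by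
    have := frob_op (p := p) (Finset.Icc 1 p)
    rw [show T ^ p = _ from this]
    simp only [LinearMap.sum_apply, Finset.sum_apply, dil_apply]
  rw [hTp] at hF
  push_cast
  have h3 : (0 : ZMod p) = ∑ i ∈ Finset.Icc 1 p, g (i ^ p * b) := hF
  refine Eq.trans ?_ h3.symm
  refine Finset.sum_congr rfl fun i hi => ?_
  have : 0 < i ^ p * b := Nat.mul_pos (Nat.pow_pos (Finset.mem_Icc.mp hi).1) hb
  simp only [g, this, true_and]

/-- the coloring is invariant under multiplication by `p`-th powers of small integers -/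
theorem color_pow {c : ℕ → Fin p} (hc : ∀ a : ℕ, 0 < a → Set.InjOn (fun i : ℕ => c (i * a)) (Set.Icc 1 p))
    (a : ℕ) (ha : 0 < a) (i : ℕ) (hi : i ∈ Finset.Icc 1 p) : c (i ^ p * a) = c a := by
  classical
  have h := frob_sum hc (c a) a ha
  rw [ZMod.natCast_eq_zero_iff] at h
  rw [← Finset.card_filter] at h
  set S := (Finset.Icc 1 p).filter (fun i => c (i ^ p * a) = c a) with hS
  have h1 : (1 : ℕ) ∈ S := by
    rw [hS, Finset.mem_filter]
    exact ⟨Finset.mem_Icc.mpr ⟨le_refl _, hp.out.one_lt.le⟩, by simp⟩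
  have h2 : 0 < S.card := Finset.card_pos.mpr ⟨1, h1⟩
  have h3 : p ≤ S.card := Nat.le_of_dvd h2 h
  have h4 : S = Finset.Icc 1 p := by
    apply Finset.eq_of_subset_of_card_le (Finset.filter_subset _ _)
    simpa using h3
  have h5 : i ∈ S := by rw [h4]; exact hi
  exact (Finset.mem_filter.mp h5).2

/-- the coloring is invariant under multiplication by products of `p`-th powers of primes `≤ p` -/
theorem color_prod {c : ℕ → Fin p} (hc : ∀ a : ℕ, 0 < a → Set.InjOn (fun i : ℕ => c (i * a)) (Set.Icc 1 p))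
    (s : Finset ℕ) (hs : ∀ q ∈ s, q ∈ Finset.Icc 1 p) (t : ℕ → ℕ) (a : ℕ) (ha : 0 < a) :
    c ((∏ q ∈ s, q ^ (p * t q)) * a) = c a := by
  classical
  induction s using Finset.induction_on with
  | empty => simp
  | insert q s hq ih =>
    rw [Finset.prod_insert hq]
    have hs' : ∀ q ∈ s, q ∈ Finset.Icc 1 p := fun r hr => hs r (Finset.mem_insert_of_mem hr)
    have hq1 : q ∈ Finset.Icc 1 p := hs q (Finset.mem_insert_self q s)
    have hpos : 0 < (∏ q ∈ s, q ^ (p * t q)) * a :=
      Nat.mul_pos (Finset.prod_pos fun r hr => Nat.pow_pos (Finset.mem_Icc.mp (hs' r hr)).1) ha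
    have key : ∀ (k : ℕ) (b : ℕ), 0 < b → c (q ^ (p * k) * b) = c b := by
      intro k
      induction k with
      | zero => intro b hb; simp
      | succ k ihk =>
        intro b hb
        have h1 : q ^ (p * (k + 1)) * b = q ^ p * (q ^ (p * k) * b) := by ring
        rw [h1, color_pow hc _ (Nat.mul_pos (Nat.pow_pos (Finset.mem_Icc.mp hq1).1) hb) q hq1, ihk b hb]
    rw [mul_assoc, key _ _ hpos]
    exact ih hs'

/-- primes up to `p` -/
def PP (p : ℕ) : Finset ℕ := (Finset.range (p + 1)).filter Nat.Prime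

/-- representative of a class -/
noncomputable def rep (p : ℕ) (e : PP p → ZMod p) : ℕ := ∏ q : PP p, (q : ℕ) ^ (e q).val

/-- exponent vector -/
noncomputable def ev (p : ℕ) (m : ℕ) : PP p → ZMod p := fun q => (m.factorization q : ZMod p)

omit hp in
theorem rep_pos (e : PP p → ZMod p) : 0 < rep p e := by
  unfold rep
  apply Finset.prod_pos
  intro q _
  exact Nat.pow_pos (Finset.mem_filter.mp q.2).2.pos

omit hp in
theorem prod_eq {m : ℕ} (hm0 : 0 < m) (hm : m ≤ p) : ∏ q : PP p, (q : ℕ) ^ (m.factorization q) = m := by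
  rw [Finset.prod_coe_sort (PP p) (fun q => q ^ (m.factorization q))]
  have h1 : m.factorization.prod (fun q k => q ^ k) = m := Nat.prod_factorization_pow_eq_self hm0.ne'
  have h2 : m.factorization.prod (fun q k => q ^ k) = ∏ q ∈ PP p, q ^ (m.factorization q) := by
    apply Finsupp.prod_of_support_subset
    · intro q hq
      rw [Nat.support_factorization, Nat.mem_primeFactors] at hq
      unfold PP
      rw [Finset.mem_filter, Finset.mem_range]
      exact ⟨Nat.lt_succ_of_le ((Nat.le_of_dvd hm0 hq.2.1).trans hm), hq.1⟩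
    · intro q _
      simp
  rw [← h2, h1]

theorem color_rep {c : ℕ → Fin p} (hc : ∀ a : ℕ, 0 < a → Set.InjOn (fun i : ℕ => c (i * a)) (Set.Icc 1 p))
    (e : PP p → ZMod p) (i : ℕ) (hi : i ∈ Finset.Icc 1 p) :
    c (rep p (e + ev p i)) = c (i * rep p e) := by
  classical
  have hi' := Finset.mem_Icc.mp hi
  let t : ℕ → ℕ := fun q => if h : q ∈ PP p then ((e ⟨q, h⟩).val + i.factorization q) / p else 0
  have h1 : (∏ q ∈ PP p, q ^ (p * t q)) * rep p (e + ev p i) = i * rep p e := by
    rw [← Finset.prod_coe_sort (PP p) (fun q => q ^ (p * t q))]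
    conv_rhs => rw [← prod_eq (p := p) hi'.1 hi'.2]
    unfold rep
    rw [← Finset.prod_mul_distrib, ← Finset.prod_mul_distrib]
    refine Finset.prod_congr rfl fun q _ => ?_
    rw [← pow_add, ← pow_add]
    congr 1
    have ht : t q = ((e q).val + i.factorization q) / p := by
      simp only [t, Subtype.coe_eta, Finset.coe_mem, dif_pos]
    have hv : ((e + ev p i) q).val = ((e q).val + i.factorization q) % p := by
      have : (e + ev p i) q = (((e q).val + i.factorization q : ℕ) : ZMod p) := by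
        simp [ev]
      rw [this, ZMod.val_natCast]
    rw [ht, hv]
    have := Nat.div_add_mod ((e q).val + i.factorization q) p
    omega
  rw [← h1]
  exact (color_prod hc (PP p) (fun q hq => by
    have := Finset.mem_filter.mp hq
    have h2 := Finset.mem_range.mp this.1
    exact Finset.mem_Icc.mpr ⟨this.2.one_lt.le, by omega⟩) t _ (rep_pos _)).symm

/-- there is a character whose values over `[1, p]` sum to zero -/
theorem exists_char {c : ℕ → Fin p} (hc : ∀ a : ℕ, 0 < a → Set.InjOn (fun i : ℕ => c (i * a)) (Set.Icc 1 p)) :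
    ∃ ψ : AddChar (PP p → ZMod p) ℂ, ∑ i ∈ Finset.Icc 1 p, ψ (ev p i) = 0 := by
  classical
  let κ : Fin p := c 1
  let F : (PP p → ZMod p) → ℂ := fun e => (if c (rep p e) = κ then 1 else 0) - 1 / p
  have hF : ∀ e, ∑ i ∈ Finset.Icc 1 p, F (e + ev p i) = 0 := by
    intro e
    simp only [F]
    rw [Finset.sum_sub_distrib]
    have h1 := exactly_one hc κ (rep p e) (rep_pos e)
    have h2 : ∑ i ∈ Finset.Icc 1 p, (if c (rep p (e + ev p i)) = κ then (1 : ℂ) else 0) = 1 := by
      have : ∑ i ∈ Finset.Icc 1 p, (if c (rep p (e + ev p i)) = κ then (1 : ℂ) else 0)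
          = ((∑ i ∈ Finset.Icc 1 p, (if c (i * rep p e) = κ then (1 : ℕ) else 0) : ℕ) : ℂ) := by
        push_cast
        refine Finset.sum_congr rfl fun i hi => ?_
        rw [color_rep hc e i hi]
      rw [this, h1]
      simp
    rw [h2]
    have hp0 : (p : ℂ) ≠ 0 := by exact_mod_cast hp.out.ne_zero
    simp [hp0]
  have hF0 : F ≠ 0 := by
    intro h
    have h0 := congrFun h 0
    simp only [F, Pi.zero_apply] at h0
    have hp2 : (2 : ℝ) ≤ p := by exact_mod_cast hp.out.two_le
    have hp0 : (p : ℂ) ≠ 0 := by exact_mod_cast hp.out.ne_zero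
    split_ifs at h0 with h3
    · have h4 : (p : ℂ) = 1 := by
        field_simp at h0
        linear_combination h0
      have : (p : ℕ) = 1 := by exact_mod_cast h4
      exact hp.out.one_lt.ne' this
    · field_simp at h0
      norm_num at h0
  let B := AddChar.complexBasis (PP p → ZMod p)
  have hrepr : F = ∑ ψ, B.repr F ψ • (ψ : (PP p → ZMod p) → ℂ) := by
    conv_lhs => rw [← B.sum_repr F]
    simp [B]
  have hne : ∃ ψ, B.repr F ψ ≠ 0 := by
    by_contra hcon
    push Not at hcon
    apply hF0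
    rw [hrepr]
    simp [hcon]
  obtain ⟨ψ, hψ⟩ := hne
  refine ⟨ψ, ?_⟩
  have hsum : ∑ φ, (B.repr F φ * ∑ i ∈ Finset.Icc 1 p, φ (ev p i)) • (φ : (PP p → ZMod p) → ℂ) = 0 := by
    funext e
    have h1 := hF e
    rw [hrepr] at h1
    simp only [Finset.sum_apply, Pi.smul_apply, smul_eq_mul, AddChar.map_add_eq_mul] at h1
    rw [Finset.sum_comm] at h1
    simp only [Finset.sum_apply, Pi.smul_apply, smul_eq_mul, Pi.zero_apply]
    rw [← h1]
    refine Finset.sum_congr rfl fun φ _ => ?_
    rw [Finset.mul_sum, Finset.sum_mul]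
    refine Finset.sum_congr rfl fun i _ => ?_
    ring
  have hli := AddChar.linearIndependent (R := ℂ) (G := PP p → ZMod p)
  rw [Fintype.linearIndependent_iff] at hli
  have h3 := hli _ hsum ψ
  rcases mul_eq_zero.mp h3 with h4 | h4
  · exact absurd h4 hψ
  · exact h4

/-- a vanishing sum of `p` powers of a primitive `p`-th root of unity uses every power once -/
theorem inj_of_sum_zero {ζ : ℂ} (hζ : IsPrimitiveRoot ζ p) (s : Finset ℕ) (hs : s.card = p)
    (g : ℕ → ℕ) (hg : ∀ i ∈ s, g i < p) (h : ∑ i ∈ s, ζ ^ (g i) = 0) : Set.InjOn g s := by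
  classical
  let P : Polynomial ℚ := ∑ i ∈ s, Polynomial.X ^ (g i)
  have hPz : Polynomial.aeval ζ P = 0 := by
    simp only [P, map_sum, map_pow, Polynomial.aeval_X]
    exact h
  have hmin : Polynomial.cyclotomic p ℚ = minpoly ℚ ζ :=
    Polynomial.cyclotomic_eq_minpoly_rat hζ hp.out.pos
  have hdvd : Polynomial.cyclotomic p ℚ ∣ P := by
    rw [hmin]
    exact minpoly.dvd ℚ ζ hPz
  have hdegP : P.natDegree ≤ p - 1 := by
    apply Polynomial.natDegree_sum_le_of_forall_le
    intro i hi
    rw [Polynomial.natDegree_X_pow]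
    have := hg i hi
    omega
  have hdegC : (Polynomial.cyclotomic p ℚ).natDegree = p - 1 := by
    rw [Polynomial.natDegree_cyclotomic, Nat.totient_prime hp.out]
  obtain ⟨R, hR⟩ := hdvd
  have hP1 : P.eval 1 = p := by
    simp only [P, Polynomial.eval_finsetSum, Polynomial.eval_pow, Polynomial.eval_X, one_pow]
    simp [hs]
  have hP0 : P ≠ 0 := by
    intro h0
    rw [h0] at hP1
    rw [Polynomial.eval_zero] at hP1
    exact hp.out.ne_zero (by exact_mod_cast hP1.symm)
  have hR0 : R ≠ 0 := by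
    rintro rfl
    rw [mul_zero] at hR
    exact hP0 hR
  have hCne : Polynomial.cyclotomic p ℚ ≠ 0 := Polynomial.cyclotomic_ne_zero p ℚ
  have hRdeg : R.natDegree = 0 := by
    have h1 := congrArg Polynomial.natDegree hR
    rw [Polynomial.natDegree_mul hCne hR0, hdegC] at h1
    omega
  obtain ⟨r, hr⟩ : ∃ r : ℚ, R = Polynomial.C r := ⟨R.coeff 0, Polynomial.eq_C_of_natDegree_eq_zero hRdeg⟩
  have hr1 : r = 1 := by
    have h1 := hP1
    rw [hR, hr, Polynomial.eval_mul, Polynomial.eval_C, Polynomial.eval_one_cyclotomic_prime] at h1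
    have hp0 : (p : ℚ) ≠ 0 := by exact_mod_cast hp.out.ne_zero
    field_simp at h1
    exact h1
  have hPC : P = ∑ i ∈ Finset.range p, Polynomial.X ^ i := by
    rw [hR, hr, hr1, Polynomial.cyclotomic_prime]
    simp
  have hcoef : ∀ k < p, (s.filter (fun i => g i = k)).card = 1 := by
    intro k hk
    have h1 := congrArg (fun Q : Polynomial ℚ => Q.coeff k) hPC
    simp only [P, Polynomial.finsetSum_coeff, Polynomial.coeff_X_pow] at h1
    have h2 : ∑ i ∈ s, (if k = g i then (1 : ℚ) else 0) = ((s.filter (fun i => g i = k)).card : ℚ) := by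
      rw [Finset.card_filter]
      push_cast
      refine Finset.sum_congr rfl fun i _ => ?_
      by_cases hki : k = g i
      · simp [hki]
      · simp [hki, Ne.symm hki]
    have h3 : ∑ i ∈ Finset.range p, (if k = i then (1 : ℚ) else 0) = 1 := by
      simp [hk]
    rw [h2, h3] at h1
    exact_mod_cast h1
  intro x hx y hy hxy
  have hc := hcoef (g x) (hg x hx)
  rw [Finset.card_eq_one] at hc
  obtain ⟨z, hz⟩ := hc
  have hx' : x ∈ s.filter (fun i => g i = g x) := Finset.mem_filter.mpr ⟨hx, rfl⟩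
  have hy' : y ∈ s.filter (fun i => g i = g x) := Finset.mem_filter.mpr ⟨hy, hxy.symm⟩
  rw [hz, Finset.mem_singleton] at hx' hy'
  rw [hx', hy']

theorem ev_mul {m n : ℕ} (hm : 0 < m) (hn : 0 < n) : ev p (m * n) = ev p m + ev p n := by
  funext q
  simp only [ev, Pi.add_apply]
  rw [Nat.factorization_mul hm.ne' hn.ne']
  simp

/-- main reduction: a completely additive map to `ℤ/p`, injective on `[1, p]` -/
theorem exists_additive {c : ℕ → Fin p} (hc : ∀ a : ℕ, 0 < a → Set.InjOn (fun i : ℕ => c (i * a)) (Set.Icc 1 p)) :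
    ∃ g : ℕ → ℕ, (∀ m, g m < p) ∧ (∀ m n, 0 < m → 0 < n → g (m * n) = (g m + g n) % p) ∧
      Set.InjOn g (Finset.Icc 1 p : Finset ℕ) := by
  classical
  obtain ⟨ψ, hψ⟩ := exists_char hc
  have hζ : IsPrimitiveRoot (Complex.exp (2 * Real.pi * Complex.I / p)) p :=
    Complex.isPrimitiveRoot_exp p hp.out.ne_zero
  set ζ := Complex.exp (2 * Real.pi * Complex.I / p) with hζdef
  have hroot : ∀ x : PP p → ZMod p, ψ x ^ p = 1 := by
    intro x
    rw [← AddChar.map_nsmul_eq_pow]
    have : p • x = 0 := by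
      funext q
      simp
    rw [this, AddChar.map_zero_eq_one]
  have hex : ∀ m : ℕ, ∃ k, k < p ∧ ζ ^ k = ψ (ev p m) := by
    intro m
    obtain ⟨k, hk, hk2⟩ := hζ.eq_pow_of_pow_eq_one (hroot (ev p m))
    exact ⟨k, hk, hk2⟩
  choose g hg1 hg2 using hex
  refine ⟨g, hg1, ?_, ?_⟩
  · intro m n hm hn
    have h1 : ζ ^ g (m * n) = ζ ^ (g m + g n) := by
      rw [hg2, ev_mul hm hn, AddChar.map_add_eq_mul, pow_add, hg2, hg2]
    have h2 : ζ ^ g (m * n) = ζ ^ ((g m + g n) % p) := by
      rw [h1]
      conv_lhs => rw [← Nat.div_add_mod (g m + g n) p]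
      rw [pow_add, pow_mul, hζ.pow_eq_one, one_pow, one_mul]
    exact hζ.pow_inj (hg1 _) (Nat.mod_lt _ hp.out.pos) h2
  · apply inj_of_sum_zero hζ (Finset.Icc 1 p) (by simp) g (fun i _ => hg1 i)
    rw [← hψ]
    exact Finset.sum_congr rfl fun i _ => hg2 i

end frob

end Pool.Agent.Lib.MP_0f64a9_nt
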