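import Mathlib
import Pool.Agent.Lib.MP_0f64a9_nt.Sound1
import Pool.Agent.Lib.MP_0f64a9_nt.Reduce
set_option autoImplicit false
namespace Pool.Agent.Lib.MP_0f64a9_nt

theorem good_of_additive (g : ℕ → ℕ) (h1 : ∀ m, g m < 211)
    (h2 : ∀ m n, 0 < m → 0 < n → g (m * n) = (g m + g n) % 211)
    (h3 : Set.InjOn g (Finset.Icc 1 211 : Finset ℕ)) : ∃ f, Good f := by
  have hg1 : g 1 = 0 := by
    have h := h2 1 1 (by norm_num) (by norm_num)
    have := h1 1
    norm_num at h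
    omega
  have hmem : ∀ m, 1 ≤ m → m ≤ 211 → m ∈ (Finset.Icc 1 211 : Finset ℕ) :=
    fun m a b => Finset.mem_Icc.mpr ⟨a, b⟩
  have hg2 : g 2 ≠ 0 := by
    intro h
    have := h3 (hmem 2 (by norm_num) (by norm_num)) (hmem 1 (by norm_num) (by norm_num))
      (by rw [h, hg1])
    omega
  have hcop : Nat.Coprime (g 2) 211 := by
    have hp : Nat.Prime 211 := by norm_num
    rw [Nat.coprime_comm, hp.coprime_iff_not_dvd]
    intro hd
    have := Nat.le_of_dvd (Nat.pos_of_ne_zero hg2) hd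
    have := h1 2
    omega
  obtain ⟨u, hu⟩ := Nat.exists_mul_mod_eq_one_of_coprime hcop (by norm_num)
  refine ⟨fun m => (u * g m) % 211, ?_, ?_, ?_, ?_⟩
  · intro m
    exact Nat.mod_lt _ (by norm_num)
  · intro m n hm hn
    show (u * g (m * n)) % 211 = ((u * g m) % 211 + (u * g n) % 211) % 211
    rw [h2 m n hm hn, Nat.mul_mod, Nat.mod_mod, ← Nat.mul_mod, mul_add, Nat.add_mod]
  · show (u * g 2) % 211 = 1
    rw [mul_comm]
    exact hu.2
  · intro m n a b a' b' h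
    have h' : (u * g m) % 211 = (u * g n) % 211 := h
    have h4 : (g 2 * (u * g m)) % 211 = (g 2 * (u * g n)) % 211 := by
      rw [Nat.mul_mod, h', ← Nat.mul_mod]
    have h5 : ∀ x, (g 2 * (u * x)) % 211 = x % 211 := by
      intro x
      rw [← mul_assoc, Nat.mul_mod, hu.2, one_mul, Nat.mod_mod]
    rw [h5, h5, Nat.mod_eq_of_lt (h1 m), Nat.mod_eq_of_lt (h1 n)] at h4
    exact h3 (hmem m a b) (hmem n a' b') h4

end Pool.Agent.Lib.MP_0f64a9_nt
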